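import Pool.Agent.Helper77.K3.Defs

/-!
# Kleinian affine structures in dimension three: statements for the reducible case

See the page `MP_df2bd8_gt_Kleinian3_RED.md` (Part II).
-/

set_option autoImplicit false

open Set Filter Topology Matrix

namespace Pool.Agent.Helper77.K3

/-- Real `2 × 2` matrices. -/
abbrev M2 := Matrix (Fin 2) (Fin 2) ℝ

/-- The linear representation on `ℝ²` defined by a multiplicative map to `2 × 2` matrices. -/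
def linRep2 {G : Type} [Group G] (ρ : G →* M2) : G →* ((Fin 2 → ℝ) →ₗ[ℝ] (Fin 2 → ℝ)) where
  toFun f := Matrix.toLin' (ρ f)
  map_one' := by
    rw [map_one, Matrix.toLin'_one]
    rfl
  map_mul' f g := by
    rw [map_mul, Matrix.toLin'_mul]
    rfl

/-- Bounded modulo scalars. -/
def BddMod {G : Type} [Group G] (ρ : G →* M2) : Prop :=
  ∃ R : ℝ, ∀ (f : G) (i j : Fin 2), (ρ f i j) ^ 2 ≤ R * |(ρ f).det|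

/-! ## Groups of `2 × 2` matrices -/

def S_hyp2 : Prop :=
  ∀ (G : Type) [Group G] (ρ : G →* M2), StrIrr (linRep2 ρ) → ¬ BddMod ρ →
    ∃ f ∈ derivedSeries G 2, ∃ (u s : Fin 2 → ℝ) (μ : ℝ), 1 < μ ∧ u ≠ 0 ∧ s ≠ 0 ∧
      ρ f *ᵥ u = μ • u ∧ ρ f *ᵥ s = μ⁻¹ • s

def S_conf2 : Prop :=
  ∀ (G : Type) [Group G] (ρ : G →* M2), (∀ f, 0 < (ρ f).det) → BddMod ρ →
    ∃ P : M2, P.det ≠ 0 ∧ ∀ f : G, (P * ρ f * P⁻¹) 0 0 = (P * ρ f * P⁻¹) 1 1 ∧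
      (P * ρ f * P⁻¹) 0 1 = -(P * ρ f * P⁻¹) 1 0

/-! ## Contraction to the identity -/

def S_contr : Prop :=
  ∀ (D : KData) (σ : ℕ → Aff3), (∀ n, σ n ∈ D.Γ) →
    (∀ i j, Tendsto (fun n => lin (σ n) i j) atTop (𝓝 (if i = j then 1 else 0))) →
    (∀ i, Tendsto (fun n => tr (σ n) i) atTop (𝓝 0)) → ∀ᶠ n in atTop, σ n = 1

/-! ## Nonelementary block on an invariant plane -/

/-- The plane spanned by `e 0`, `e 1` is invariant. -/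
def KData.PlaneInv (D : KData) : Prop := ∀ γ ∈ D.Γ, lin γ 2 0 = 0 ∧ lin γ 2 1 = 0

/-- The line spanned by `e 0` is invariant. -/
def KData.LineInv (D : KData) : Prop := ∀ γ ∈ D.Γ, lin γ 1 0 = 0 ∧ lin γ 2 0 = 0

def S_2An : Prop :=
  ∀ (D : KData), D.PlaneInv → ∀ ρ : D.Γ →* M2,
    (∀ γ : D.Γ, ρ γ = !![lin γ.1 0 0, lin γ.1 0 1; lin γ.1 1 0, lin γ.1 1 1]) →
    StrIrr (linRep2 ρ) → ¬ BddMod ρ → False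

/-! ## Frames -/

/-- A hyperbolic element with eigenvector `e 0` of eigenvalue one, height translation `c`. -/
def HypF (γ : Aff3) (μ c : ℝ) (p u s : E) : Prop :=
  1 < μ ∧ γ.linear (e 0) = e 0 ∧ γ.linear u = μ • u ∧ γ.linear s = μ⁻¹ • s ∧ γ p = p + c • e 0 ∧
    LinearIndependent ℝ ![e 0, u, s]

/-- Three vectors are independent. -/
abbrev Ind3 (a b c : E) : Prop := LinearIndependent ℝ ![a, b, c]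

/-- `K` is invariant under translations by multiples of `e 0`. -/
def KData.KInv (D : KData) : Prop := ∀ x ∈ D.K, ∀ t : ℝ, x + t • e 0 ∈ D.K

/-- Algebra of frames: action formula, inverse, conjugate, uniqueness of the height, existence. -/
def S_frame : Prop :=
  (∀ γ μ c p u s, HypF γ μ c p u s → ∀ (n : ℕ) (x a b : ℝ),
    (γ ^ n) (p + x • e 0 + a • u + b • s) =
      p + (x + n * c) • e 0 + (μ ^ n * a) • u + (μ⁻¹ ^ n * b) • s) ∧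
  (∀ γ μ c p u s, HypF γ μ c p u s → HypF γ⁻¹ μ (-c) p s u) ∧
  (∀ γ μ c p u s (h : Aff3) (lam : ℝ), HypF γ μ c p u s → h.linear (e 0) = lam • e 0 → lam ≠ 0 →
    HypF (h * γ * h⁻¹) μ (lam * c) (h p) (h.linear u) (h.linear s)) ∧
  (∀ γ μ c p u s (n : ℕ), HypF γ μ c p u s → n ≠ 0 → HypF (γ ^ n) (μ ^ n) (n * c) p u s) ∧
  (∀ γ μ c p u s μ' c' p' u' s', HypF γ μ c p u s → HypF γ μ' c' p' u' s' →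
    c' = c ∧ μ' = μ ∧ (∃ a b : ℝ, u' = a • u ∧ s' = b • s)) ∧
  (∀ (γ : Aff3) (μ : ℝ), lin γ 0 0 = 1 → lin γ 1 0 = 0 → lin γ 2 0 = 0 → 1 < μ →
    lin γ 1 1 + lin γ 2 2 = μ + μ⁻¹ → lin γ 1 1 * lin γ 2 2 - lin γ 1 2 * lin γ 2 1 = 1 →
    ∃ c p u s, HypF γ μ c p u s)

/-- `c = 0` is impossible if `K` is `e 0`-invariant. -/
def S_c0 : Prop :=
  ∀ (D : KData) (γ : Aff3) (μ : ℝ) (p u s : E), D.KInv → γ ∈ D.Γ → ¬ HypF γ μ 0 p u s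

def S_cancel : Prop :=
  ∀ (D : KData) (γ γ' : Aff3) (μ μ' c : ℝ) (p u s p' u' s' : E), D.KInv → γ ∈ D.Γ → γ' ∈ D.Γ →
    HypF γ μ c p u s → HypF γ' μ' (-c) p' u' s' → Ind3 (e 0) s u' → False

def S_move : Prop :=
  ∀ (D : KData) (γ h : Aff3) (μ c : ℝ) (p u s : E), D.KInv → γ ∈ D.Γ → h ∈ D.Γ →
    HypF γ μ c p u s → h.linear (e 0) = e 0 → Ind3 (e 0) s (h.linear s) → False

def S_B2 : Prop :=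
  ∀ (D : KData) (γ γ' : Aff3) (μ c : ℝ) (p u s : E) (p' v₂ v₃ : E) (lam μ₂ μ₃ : ℝ),
    γ ∈ D.Γ → γ' ∈ D.Γ → HypF γ μ c p u s → c ≠ 0 → γ' p' = p' → γ'.linear (e 0) = lam • e 0 →
    γ'.linear v₂ = μ₂ • v₂ → γ'.linear v₃ = μ₃ • v₃ → 1 < lam → 1 < μ₂ → 0 < μ₃ → μ₃ < 1 →
    Ind3 (e 0) v₂ v₃ → Ind3 (e 0) u v₂ → Ind3 (e 0) u v₃ → Ind3 (e 0) s v₂ → Ind3 (e 0) s v₃ →
    False

/-- The set of heights `t` such that the line through `p + t e₀` in direction `u` lies in `K`. -/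
def KData.hs (D : KData) (p u : E) : Set ℝ := {t : ℝ | ∀ a : ℝ, p + t • e 0 + a • u ∈ D.K}

def S_per : Prop :=
  ∀ (D : KData) (γ γ' : Aff3) (μ μ' : ℝ) (p u s p' u' s' : E), D.LineInv → γ ∈ D.Γ → γ' ∈ D.Γ →
    (∀ δ ∈ D.Γ, ∀ ν c q v w, HypF δ ν c q v w → c = 0) →
    HypF γ μ 0 p u s → HypF γ' μ' 0 p' u' s' →
    Ind3 (e 0) u u' → Ind3 (e 0) u s' → Ind3 (e 0) s u' → Ind3 (e 0) s s' →
    ∃ α d : ℝ, d ≠ 0 ∧ (∀ t, t ∈ D.hs p' u' ↔ t + α ∈ D.hs p u) ∧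
      (∀ t, t ∈ D.hs p u ↔ t + d ∈ D.hs p u) ∧ (D.hs p u).Nonempty ∧ D.hs p u ≠ univ ∧
      IsClosed (D.hs p u)

def S_2Bn : Prop :=
  ∀ (D : KData), D.LineInv → ∀ ρ : D.Γ →* M2,
    (∀ γ : D.Γ, ρ γ = !![lin γ.1 1 1, lin γ.1 1 2; lin γ.1 2 1, lin γ.1 2 2]) →
    StrIrr (linRep2 ρ) → ¬ BddMod ρ → D.Ω = univ

/-! ## Conformal block -/

def S_S1 : Prop :=
  ∀ D : KData, D.PlaneInv → (∀ γ ∈ D.Γ, lin γ 0 0 = lin γ 1 1 ∧ lin γ 0 1 = -lin γ 1 0 ∧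
    0 < lin γ 2 2) → D.Ω = univ

def S_S2 : Prop :=
  ∀ D : KData, D.LineInv → (∀ γ ∈ D.Γ, lin γ 1 1 = lin γ 2 2 ∧ lin γ 1 2 = -lin γ 2 1 ∧
    0 < lin γ 0 0) → D.Ω = univ

/-! ## The triangular case -/

/-- The affine map `γ` is upper triangular with positive diagonal and determinant one. -/
def IsTri (γ : Aff3) : Prop :=
  lin γ 1 0 = 0 ∧ lin γ 2 0 = 0 ∧ lin γ 2 1 = 0 ∧ 0 < lin γ 0 0 ∧ 0 < lin γ 1 1 ∧ 0 < lin γ 2 2 ∧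
    lin γ 0 0 * lin γ 1 1 * lin γ 2 2 = 1

def KData.Tri (D : KData) : Prop := ∀ γ ∈ D.Γ, IsTri γ

/-- Normal form of one element, by a unipotent triangular conjugation. -/
def S_norm : Prop :=
  ∀ (D : KData) (g : Aff3), D.Tri → g ∈ D.Γ → ∃ (φ : Aff3) (D' : KData), D'.Tri ∧
    IsTri φ ∧ (∀ i, lin φ i i = 1) ∧ (∀ γ, γ ∈ D'.Γ ↔ φ⁻¹ * γ * φ ∈ D.Γ) ∧ D'.Ω = φ '' D.Ω ∧
    (∀ γ ∈ D.Γ, φ * γ * φ⁻¹ ∈ D'.Γ ∧ (∀ i, lin (φ * γ * φ⁻¹) i i = lin γ i i)) ∧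
    (lin g 0 0 ≠ lin g 1 1 → lin (φ * g * φ⁻¹) 0 1 = 0) ∧
    (lin g 1 1 ≠ lin g 2 2 → lin (φ * g * φ⁻¹) 1 2 = 0) ∧
    (lin g 0 0 ≠ lin g 2 2 → lin (φ * g * φ⁻¹) 0 2 = 0) ∧
    (∀ i, lin g i i ≠ 1 → tr (φ * g * φ⁻¹) i = 0)

/-- Density of the `z`-translations of unipotent elements. -/
def S_densN : Prop :=
  ∀ D : KData, D.Tri → (∃ g ∈ D.Γ, lin g 2 2 ≠ 1) → ∀ a b : ℝ, a < b →
    ∃ τ ∈ D.Γ, (∀ i, lin τ i i = 1) ∧ a < tr τ 2 ∧ tr τ 2 < b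

def S_T0 : Prop :=
  ∀ D : KData, D.Tri → (∀ γ ∈ D.Γ, lin γ 0 0 = 1 ∧ lin γ 2 2 = 1) → D.Ω = univ

def S_TS : Prop :=
  ∀ (D : KData) (γ₁ γ₂ : Aff3), D.Tri → γ₁ ∈ D.Γ → γ₂ ∈ D.Γ → lin γ₁ 2 2 = 1 → lin γ₂ 2 2 = 1 →
    1 < lin γ₁ 0 0 → 1 < lin γ₂ 0 0 → 0 < tr γ₁ 2 → tr γ₂ 2 < 0 →
    (∀ a b : ℝ, a < b → ∃ τ ∈ D.Γ, lin τ 2 2 = 1 ∧ a < tr τ 2 ∧ tr τ 2 < b) → False

def S_T1a : Prop :=
  ∀ (D : KData) (γ : Aff3), D.Tri → (∀ γ ∈ D.Γ, lin γ 2 2 = 1) → γ ∈ D.Γ → tr γ 2 = 0 →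
    lin γ 0 0 ≠ 1 → False

def S_T1b : Prop :=
  ∀ (D : KData), D.Tri → (∀ γ ∈ D.Γ, lin γ 2 2 = 1) → (∀ γ ∈ D.Γ, tr γ 2 = 0 → lin γ 0 0 = 1) →
    (∃ γ ∈ D.Γ, lin γ 0 0 ≠ 1) → D.Ω = univ

/-- First half of T2: the group is diagonal modulo `e 0`, and the translation parts of the
elements with `lin 2 2 = 1` form a lattice. -/
def S_T2disc : Prop :=
  ∀ (D : KData) (g : Aff3), D.Tri → (∀ γ ∈ D.Γ, lin γ 0 0 = 1) → g ∈ D.Γ → 1 < lin g 2 2 →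
    lin g 0 1 = 0 → lin g 0 2 = 0 → lin g 1 2 = 0 → tr g 1 = 0 → tr g 2 = 0 → D.Ω ≠ univ →
    D.KInv ∧ tr g 0 ≠ 0 ∧ (∀ γ ∈ D.Γ, lin γ 1 2 = 0) ∧
    ∃ τ₁ ∈ D.Γ, ∃ τ₂ ∈ D.Γ, lin τ₁ 2 2 = 1 ∧ lin τ₂ 2 2 = 1 ∧
      tr τ₁ 1 * tr τ₂ 2 - tr τ₁ 2 * tr τ₂ 1 ≠ 0 ∧
      ∀ τ ∈ D.Γ, lin τ 2 2 = 1 → ∃ m n : ℤ, tr τ 1 = m * tr τ₁ 1 + n * tr τ₂ 1 ∧
        tr τ 2 = m * tr τ₁ 2 + n * tr τ₂ 2

/-- Second half of T2. -/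
def S_T2lat : Prop :=
  ∀ (D : KData) (g : Aff3), D.Tri → (∀ γ ∈ D.Γ, lin γ 0 0 = 1) → g ∈ D.Γ → 1 < lin g 2 2 →
    lin g 0 1 = 0 → lin g 0 2 = 0 → lin g 1 2 = 0 → tr g 1 = 0 → tr g 2 = 0 →
    D.KInv → tr g 0 ≠ 0 → (∀ γ ∈ D.Γ, lin γ 1 2 = 0) →
    (∃ τ₁ ∈ D.Γ, ∃ τ₂ ∈ D.Γ, lin τ₁ 2 2 = 1 ∧ lin τ₂ 2 2 = 1 ∧
      tr τ₁ 1 * tr τ₂ 2 - tr τ₁ 2 * tr τ₂ 1 ≠ 0 ∧
      ∀ τ ∈ D.Γ, lin τ 2 2 = 1 → ∃ m n : ℤ, tr τ 1 = m * tr τ₁ 1 + n * tr τ₂ 1 ∧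
        tr τ 2 = m * tr τ₁ 2 + n * tr τ₂ 2) → D.Ω = univ

def S_T2 : Prop :=
  ∀ D : KData, D.Tri → (∀ γ ∈ D.Γ, lin γ 0 0 = 1) → (∃ g ∈ D.Γ, lin g 2 2 ≠ 1) → D.Ω = univ

def S_T3a : Prop :=
  ∀ (D : KData) (δ g : Aff3), D.Tri → δ ∈ D.Γ → g ∈ D.Γ → lin δ 2 2 = 1 → lin δ 0 0 ≠ 1 →
    lin g 2 2 ≠ 1 → False

def S_T3b : Prop :=
  ∀ (D : KData) (g h : Aff3), D.Tri → (∀ γ ∈ D.Γ, lin γ 2 2 = 1 → lin γ 0 0 = 1) → g ∈ D.Γ →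
    h ∈ D.Γ → Real.log (lin g 0 0) * Real.log (lin h 2 2) ≠
      Real.log (lin g 2 2) * Real.log (lin h 0 0) → False

/-- Proportional logarithms: `lin 0 0 = (lin 2 2) ^ a₀`. -/
def KData.Prp (D : KData) (a₀ : ℝ) : Prop :=
  D.Tri ∧ ∀ γ ∈ D.Γ, lin γ 0 0 = (lin γ 2 2) ^ a₀

/-- No translations in the direction `e 0`. -/
def S_noX : Prop :=
  ∀ (D : KData) (g γ : Aff3), D.Tri → g ∈ D.Γ → lin g 0 0 ≠ 1 → γ ∈ D.Γ → mat γ = 1 →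
    tr γ 1 = 0 → tr γ 2 = 0 → γ = 1

/-- Commutators of unipotent elements are translations in the plane `<e 0, e 1>`. -/
def S_comm : Prop :=
  ∀ (D : KData) (a₀ : ℝ), D.Prp a₀ → a₀ ≠ 0 → (∃ g ∈ D.Γ, lin g 2 2 ≠ 1) → ∀ σ ∈ D.Γ, ∀ τ ∈ D.Γ,
    lin σ 2 2 = 1 → lin τ 2 2 = 1 →
    mat (σ * τ * σ⁻¹ * τ⁻¹) = 1 ∧ tr (σ * τ * σ⁻¹ * τ⁻¹) 2 = 0

/-- Shears parallel to the planes `y = const`. -/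
def S_ys : Prop :=
  ∀ (D : KData) (τ τ' : Aff3), D.Tri → τ ∈ D.Γ → τ' ∈ D.Γ → (∀ i, lin τ i i = 1) →
    (∀ i, lin τ' i i = 1) → lin τ 0 2 = 0 → lin τ 1 2 = 0 → tr τ 1 = 0 → lin τ' 0 2 = 0 →
    lin τ' 1 2 = 0 → tr τ' 1 = 0 → tr τ 2 ≠ 0 → tr τ' 2 ≠ 0 →
    lin τ 0 1 * tr τ' 2 ≠ lin τ' 0 1 * tr τ 2 → False

def S_b2i : Prop :=
  ∀ (D : KData) (a₀ : ℝ), D.Prp a₀ → -1 < a₀ → a₀ < 0 → (∃ g ∈ D.Γ, lin g 2 2 ≠ 1) → D.Ω = univ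

def S_b2ii : Prop :=
  ∀ (D : KData) (a₀ : ℝ), D.Prp a₀ → 0 < a₀ → (∃ g ∈ D.Γ, lin g 2 2 ≠ 1) → D.Ω = univ

def S_b2iii : Prop :=
  ∀ (D : KData) (a₀ : ℝ), D.Prp a₀ → a₀ < -1 → (∃ g ∈ D.Γ, lin g 2 2 ≠ 1) → D.Ω = univ

def S_b2iv : Prop :=
  ∀ (D : KData), D.Prp (-1) → (∃ g ∈ D.Γ, lin g 2 2 ≠ 1) → D.Ω = univ

def S_T : Prop := ∀ D : KData, D.Tri → D.Ω = univ

/-! ## Subgroups of the plane -/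

/-- A subgroup of `ℝ²` with arbitrarily small nonzero elements contains a line in its closure. -/
def S_nondisc : Prop :=
  ∀ T : AddSubgroup (Fin 2 → ℝ), (∀ ε > 0, ∃ t ∈ T, t ≠ 0 ∧ ‖t‖ < ε) →
    ∃ w : Fin 2 → ℝ, w ≠ 0 ∧ ∀ r : ℝ, r • w ∈ closure (T : Set (Fin 2 → ℝ))

/-- A discrete subgroup of `ℝ²` invariant under a hyperbolic diagonal matrix is trivial or a
lattice without nonzero elements on the axes. -/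
def S_lat2 : Prop :=
  ∀ (T : AddSubgroup (Fin 2 → ℝ)) (χ : ℝ), 1 < χ → (∃ ε > 0, ∀ t ∈ T, ‖t‖ < ε → t = 0) →
    (∀ t : Fin 2 → ℝ, t ∈ T ↔ ![χ⁻¹ * t 0, χ * t 1] ∈ T) → T ≠ ⊥ →
    ∃ w₁ ∈ T, ∃ w₂ ∈ T, w₁ 0 * w₂ 1 - w₁ 1 * w₂ 0 ≠ 0 ∧
      (∀ t ∈ T, ∃ m n : ℤ, t = m • w₁ + n • w₂) ∧ (∀ t ∈ T, t ≠ 0 → t 0 ≠ 0 ∧ t 1 ≠ 0)

/-- A multiplicative group of positive numbers `χ` whose diagonal matrices preserve a lattice is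
cyclic. -/
def S_cyc : Prop :=
  ∀ (X : Subgroup ℝˣ) (w₁ w₂ : Fin 2 → ℝ), w₁ 0 * w₂ 1 - w₁ 1 * w₂ 0 ≠ 0 →
    (∀ χ ∈ X, 0 < (χ : ℝ)) →
    (∀ χ ∈ X, ∃ a b c d : ℤ, ![(χ : ℝ)⁻¹ * w₁ 0, χ * w₁ 1] = a • w₁ + b • w₂ ∧
      ![(χ : ℝ)⁻¹ * w₂ 0, χ * w₂ 1] = c • w₁ + d • w₂) →
    ∃ χ₀ ∈ X, ∀ χ ∈ X, ∃ n : ℤ, χ = χ₀ ^ n

/-! ## The reducible case and the main theorem -/

/-- Some subgroup of finite index has an invariant subspace. -/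
def S_red : Prop :=
  ∀ (D : KData) (Γ' : Subgroup Aff3) (U : Submodule ℝ E), Γ' ≤ D.Γ →
    (Γ'.subgroupOf D.Γ).FiniteIndex → (∀ γ ∈ Γ', ∀ u ∈ U, γ.linear u ∈ U) → U ≠ ⊥ → U ≠ ⊤ →
    D.Ω = univ

def S_main : Prop := ∀ D : KData, D.Ω = univ

end Pool.Agent.Helper77.K3
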