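import Pool.Agent.Helper77.K3.Defs

/-!
# Kleinian affine structures in dimension three: statements for the irreducible case

See the page `MP_df2bd8_gt_Kleinian3_FULL.md` (Part I).  Indices `1, 2, 3` of the page are
`0, 1, 2` here.
-/

set_option autoImplicit false

open Set Filter Topology Matrix

namespace Pool.Agent.Helper77.K3

/-! ## Matrix lemmas -/

/-- Two rank one limits give three real eigenvalues with distinct absolute values, with control of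
the extremal eigenvectors `v 0`, `v 2` and eigenfunctionals `w 0`, `w 2`. -/
def S_pert : Prop :=
  ∀ (A : ℕ → SL3) (c c' : ℕ → ℝ) (x φ y ψ : E),
    Tendsto c atTop atTop → Tendsto c' atTop atTop →
    Tendsto (fun n => (c n)⁻¹ • (A n : M3)) atTop (𝓝 (vecMulVec x φ)) →
    Tendsto (fun n => (c' n)⁻¹ • ((A n)⁻¹ : SL3).1) atTop (𝓝 (vecMulVec y ψ)) →
    φ ⬝ᵥ x ≠ 0 → ψ ⬝ᵥ y ≠ 0 → ∀ ε > 0, ∀ᶠ n in atTop, ∃ (v w : Fin 3 → E) (ν : Fin 3 → ℝ),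
      (∀ i, (A n : M3) *ᵥ v i = ν i • v i) ∧ (∀ i, w i ᵥ* (A n : M3) = ν i • w i) ∧
      |ν 2| < |ν 1| ∧ |ν 1| < |ν 0| ∧ 0 < |ν 2| ∧
      (∀ i j, i ≠ j → w i ⬝ᵥ v j = 0) ∧ (∀ i, w i ⬝ᵥ v i ≠ 0) ∧
      ‖v 0 - x‖ < ε ∧ ‖v 2 - y‖ < ε ∧ ‖w 0 - φ‖ < ε ∧ ‖w 2 - ψ‖ < ε

/-- Rank one limits in an unbounded sequence (of elements or of inverses). -/
def S_rk1 : Prop :=
  ∀ h : ℕ → SL3, Tendsto (fun n => ‖fun i j => (h n : M3) i j‖) atTop atTop →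
    ∃ (k : ℕ → ℕ) (c : ℕ → ℝ) (x φ : E), StrictMono k ∧ Tendsto c atTop atTop ∧ x ≠ 0 ∧ φ ≠ 0 ∧
      (Tendsto (fun n => (c n)⁻¹ • (h (k n) : M3)) atTop (𝓝 (vecMulVec x φ)) ∨
       Tendsto (fun n => (c n)⁻¹ • ((h (k n))⁻¹ : SL3).1) atTop (𝓝 (vecMulVec x φ)))

/-- The linear representation defined by a homomorphism to `SL3`. -/
def linRep {G : Type} [Group G] (ρ : G →* SL3) : G →* (E →ₗ[ℝ] E) where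
  toFun f := Matrix.toLin' (ρ f : M3)
  map_one' := by
    rw [map_one, Matrix.SpecialLinearGroup.coe_one, Matrix.toLin'_one]
    rfl
  map_mul' f g := by
    rw [map_mul, Matrix.SpecialLinearGroup.coe_mul, Matrix.toLin'_mul]
    rfl

/-- The element `f` has three real eigenvalues `ν 0 > 1 > ν 1 > ν 2 > 0`. -/
def IsSad (f : SL3) : Prop :=
  ∃ (v : Fin 3 → E) (ν : Fin 3 → ℝ), (∀ i, (f : M3) *ᵥ v i = ν i • v i) ∧ (∀ i, v i ≠ 0) ∧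
    0 < ν 2 ∧ ν 2 < ν 1 ∧ ν 1 < 1 ∧ 1 < ν 0

/-- The dichotomy for strongly irreducible unbounded groups (Section 0). -/
def S_dich : Prop :=
  ∀ (G : Type) [Group G] (ρ : G →* SL3), StrIrr (linRep ρ) →
    (¬ ∃ R : ℝ, ∀ f i j, |(ρ f : M3) i j| ≤ R) →
    (∃ f : G, IsSad (ρ f)) ∨
    (∃ (G' : Subgroup G) (B : M3), G'.FiniteIndex ∧ Bᵀ = B ∧ B.det ≠ 0 ∧
      (∃ x : E, 0 < x ⬝ᵥ (B *ᵥ x)) ∧ (∃ x : E, x ⬝ᵥ (B *ᵥ x) < 0) ∧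
      ∀ f ∈ G', (ρ f : M3)ᵀ * B * (ρ f : M3) = B)

/-- An invariant indefinite form (Carriere's theorem, from the rank one theorem). -/
def S_form : Prop :=
  ∀ (D : KData) (B : M3), Bᵀ = B → B.det ≠ 0 → (∃ x : E, 0 < x ⬝ᵥ (B *ᵥ x)) →
    (∃ x : E, x ⬝ᵥ (B *ᵥ x) < 0) → (∀ γ ∈ D.Γ, (mat γ)ᵀ * B * mat γ = B) → D.Ω = univ

/-! ## The half plane relation (Section 1) -/

/-- `g` is diagonal with fixed point `0` and eigenvalues `ν 0 > 1 > ν 1 > ν 2 > 0`. -/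
def IsDiagSad (g : Aff3) (ν : Fin 3 → ℝ) : Prop :=
  (∀ i j, lin g i j = if i = j then ν i else 0) ∧ (∀ i, tr g i = 0) ∧
    0 < ν 2 ∧ ν 2 < ν 1 ∧ ν 1 < 1 ∧ 1 < ν 0

/-- Section 1: (1.2) and (R). -/
def S_half : Prop :=
  ∀ (D : KData) (g : Aff3) (ν : Fin 3 → ℝ), (∀ γ ∈ D.Γ, (mat γ).det = 1) → g ∈ D.Γ →
    IsDiagSad g ν → ∃ S : Set ℝ, S = {s : ℝ | ∀ t : ℝ, (![t, s, 0] : E) ∈ D.K} ∧
      IsClosed S ∧ 0 ∈ S ∧ S ≠ univ ∧ (∀ s, ν 1 * s ∈ S ↔ s ∈ S) ∧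
      (∀ f ∈ D.Γ, lin f 0 2 ≠ 0 → ∀ s, s ∈ S ∨ (-(lin f⁻¹ 0 2) / lin f 0 2) * s ∈ S)

/-- Section 2. -/
def S_NC : Prop :=
  ∀ (G : Type) [Group G] (ρ : G →* SL3) (g : G) (ν : Fin 3 → ℝ), StrIrr (linRep ρ) →
    (ρ g : M3) = Matrix.diagonal ν → 0 < ν 2 → ν 2 < ν 1 → ν 1 < 1 → 1 < ν 0 →
    ∀ S : Set ℝ, IsClosed S → 0 ∈ S → S ≠ univ → (∀ s, ν 1 * s ∈ S ↔ s ∈ S) →
    (∀ f : G, (ρ f : M3) 0 2 ≠ 0 → ∀ s, s ∈ S ∨ (-((ρ f⁻¹ : SL3) : M3) 0 2 / (ρ f : M3) 0 2) * s ∈ S) →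
    ∀ f : G, 0 ≤ (ρ f : M3) 0 2 * ((ρ f⁻¹ : SL3) : M3) 0 2

/-! ## Flag systems (Sections 3 - 8) -/

/-- A strongly irreducible group with a diagonal element with distinct positive eigenvalues and
the inequality NC. -/
structure FS where
  G : Type
  [grp : Group G]
  ρ : G →* SL3
  irr : StrIrr (linRep ρ)
  g : G
  ν : Fin 3 → ℝ
  pos : 0 < ν 2
  lt1 : ν 2 < ν 1
  lt0 : ν 1 < ν 0
  ne1 : ν 1 ≠ 1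
  diag : (ρ g : M3) = Matrix.diagonal ν
  NC : ∀ f : G, 0 ≤ (ρ f : M3) 0 2 * ((ρ f⁻¹ : SL3) : M3) 0 2

attribute [instance] FS.grp

/-- The matrix of `f`. -/
def FS.m (F : FS) (f : F.G) : M3 := (F.ρ f : M3)

/-- The orbit of the base flag `(e 2, e 0)`, up to scaling by factors of the same sign. -/
def FS.orb (F : FS) : Set (E × E) :=
  {p | ∃ (f : F.G) (a b : ℝ), 0 < a * b ∧ p = (a • (F.m f *ᵥ e 2), b • (e 0 ᵥ* F.m f⁻¹))}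

/-- The closed set of flags `(x, φ)`. -/
def FS.fl (F : FS) : Set (E × E) := closure F.orb ∩ {p | p.1 ≠ 0 ∧ p.2 ≠ 0}

/-- Basic properties of flags (3.1), (3.2), closedness. -/
def S_flag : Prop :=
  ∀ F : FS,
    (e 2, e 0) ∈ F.fl ∧
    (∀ p ∈ F.fl, ∀ a b : ℝ, 0 < a * b → (a • p.1, b • p.2) ∈ F.fl) ∧
    (∀ p ∈ F.fl, ∀ f : F.G, (F.m f *ᵥ p.1, p.2 ᵥ* F.m f⁻¹) ∈ F.fl) ∧
    (∀ p ∈ F.fl, p.2 ⬝ᵥ p.1 = 0) ∧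
    (∀ p ∈ F.fl, ∀ q ∈ F.fl, 0 ≤ (p.2 ⬝ᵥ q.1) * (q.2 ⬝ᵥ p.1)) ∧
    (∀ p : E × E, p ∈ closure F.fl → p.1 ≠ 0 → p.2 ≠ 0 → p ∈ F.fl) ∧
    (∀ p ∈ F.fl, (-p.1, p.2) ∉ F.fl) ∧
    (∀ x ∈ closure {x | ∃ φ, (x, φ) ∈ F.fl}, x ≠ 0 → ∃ φ, (x, φ) ∈ F.fl) ∧
    (∀ φ ∈ closure {φ | ∃ x, (x, φ) ∈ F.fl}, φ ≠ 0 → ∃ x, (x, φ) ∈ F.fl)

/-- Density (3.3). -/
def S_dens : Prop :=
  ∀ F : FS, ∀ p ∈ F.fl, ∀ ψ : E, ψ ≠ 0 → ∀ ε > 0, ∃ q ∈ F.fl, ‖q - p‖ < ε ∧ ψ ⬝ᵥ q.1 ≠ 0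

/-- Limits of flags under a sequence with rank one limits. -/
def S_flim : Prop :=
  ∀ F : FS, ∀ (f : ℕ → F.G) (c : ℕ → ℝ) (x φ : E), x ≠ 0 → φ ≠ 0 →
    Tendsto (fun n => (c n)⁻¹ • F.m (f n)) atTop (𝓝 (vecMulVec x φ)) → ∃ ψ, (x, ψ) ∈ F.fl

/-- The dual flag system (3.4). -/
def S_dual : Prop :=
  ∀ F : FS, ∃ F' : FS, (∀ x φ : E, (x, φ) ∈ F.fl ↔ (φ ∘ Fin.rev, x ∘ Fin.rev) ∈ F'.fl)

/-- Lemma C. -/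
def S_lemC : Prop :=
  ∀ F : FS, ∀ (x : Fin 3 → E) (c : Fin 3 → ℝ) (φ : E), (∀ i, c i ≠ 0) →
    (∀ i, (x i, c i • φ) ∈ F.fl) → ∃ i j, i ≠ j ∧ ∃ t : ℝ, x i = t • x j

/-- Lemma D. -/
def S_lemD : Prop :=
  ∀ F : FS, ∀ p ∈ F.fl, ∃ Z : Finset E, (∀ z ∈ Z, z ≠ 0) ∧
    ∀ q ∈ F.fl, p.2 ⬝ᵥ q.1 = 0 → ∃ z ∈ Z, ∃ t : ℝ, t ≠ 0 ∧ q.1 = t • z

/-- Lemma D*. -/
def S_lemDs : Prop :=
  ∀ F : FS, ∀ p ∈ F.fl, ∃ Z : Finset E, (∀ z ∈ Z, z ≠ 0) ∧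
    ∀ q ∈ F.fl, q.2 ⬝ᵥ p.1 = 0 → ∃ z ∈ Z, ∃ t : ℝ, t ≠ 0 ∧ q.2 = t • z

/-- (6.1): no translations. -/
def S_trans : Prop :=
  ∀ (D : KData) (g : Aff3) (ν : Fin 3 → ℝ), g ∈ D.Γ → IsDiagSad g ν →
    (∀ U : Submodule ℝ E, (∀ γ ∈ D.Γ, ∀ u ∈ U, γ.linear u ∈ U) → U = ⊥ ∨ U = ⊤) →
    ∀ γ ∈ D.Γ, mat γ = 1 → γ = 1

/-- (6.2): the identity is isolated. -/
def S_disc : Prop :=
  ∀ F : FS, ∃ ε > 0, ∀ f : F.G, (∀ i j, |F.m f i j - (1 : M3) i j| < ε) → F.m f = 1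

/-- The group of matrices is proper: finitely many elements with bounded matrix. -/
def FS.Proper (F : FS) : Prop := ∀ R : ℝ, {f : F.G | ∀ i j, |F.m f i j| ≤ R}.Finite

def S_prop : Prop :=
  ∀ F : FS, (∀ f : F.G, F.m f = 1 → f = 1) →
    (∃ ε > 0, ∀ f : F.G, (∀ i j, |F.m f i j - (1 : M3) i j| < ε) → F.m f = 1) → F.Proper

/-- (6.3): limits have rank one. -/
def S_rank1 : Prop :=
  ∀ F : FS, F.Proper → ∀ (f : ℕ → F.G) (c : ℕ → ℝ) (π : M3), Tendsto f atTop cofinite →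
    Tendsto (fun n => (c n)⁻¹ • F.m (f n)) atTop (𝓝 π) → π ≠ 0 →
    ∃ x φ ψ : E, x ≠ 0 ∧ φ ≠ 0 ∧ π = vecMulVec x φ ∧ (x, ψ) ∈ F.fl

/-- The set of directions `x` of flags is connected (projectively). -/
def FS.Conn (F : FS) : Prop :=
  ∀ A B : Set E, IsClosed A → IsClosed B → (∀ x ∈ A, ∀ t : ℝ, t • x ∈ A) →
    (∀ x ∈ B, ∀ t : ℝ, t • x ∈ B) → (∀ p ∈ F.fl, p.1 ∈ A ∨ p.1 ∈ B) →
    (∀ p ∈ F.fl, ¬ (p.1 ∈ A ∧ p.1 ∈ B)) → (∀ p ∈ F.fl, p.1 ∈ A) ∨ (∀ p ∈ F.fl, p.1 ∈ B)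

/-- (7.2) -/
def S_conn : Prop := ∀ F : FS, F.Proper → OneEnded F.G → F.Conn

/-- A good loxodromic element `d`, with eigenbasis `v`, dual basis `w` and eigenvalues `μ`. -/
structure FS.Good (F : FS) (d : F.G) (v w : Fin 3 → E) (μ : Fin 3 → ℝ) : Prop where
  hv : ∀ i, F.m d *ᵥ v i = μ i • v i
  hw : ∀ i, w i ᵥ* F.m d = μ i • w i
  dual : ∀ i j, w i ⬝ᵥ v j = if i = j then 1 else 0
  pos : 0 < μ 2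
  lt1 : μ 2 < μ 1
  lt0 : μ 1 < μ 0
  top : ∃ s : ℝ, s ≠ 0 ∧ (v 0, s • w 2) ∈ F.fl
  bot : ∃ s : ℝ, s ≠ 0 ∧ (v 2, s • w 0) ∈ F.fl
  hv1 : ∀ p ∈ F.fl, ∀ t : ℝ, p.1 ≠ t • v 1
  hw1 : ∀ p ∈ F.fl, ∀ t : ℝ, p.2 ≠ t • w 1

/-- (8.1) -/
def S_good : Prop := ∀ F : FS, ∃ (d : F.G) (v w : Fin 3 → E) (μ : Fin 3 → ℝ), F.Good d v w μ

/-- (8.2), first part. -/
def S_good2 : Prop :=
  ∀ (F : FS) (d : F.G) (v w : Fin 3 → E) (μ : Fin 3 → ℝ), F.Good d v w μ → ∀ p ∈ F.fl,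
    (w 2 ⬝ᵥ p.1 = 0 → ∃ t : ℝ, p.1 = t • v 0) ∧ (w 0 ⬝ᵥ p.1 = 0 → ∃ t : ℝ, p.1 = t • v 2) ∧
    (p.2 ⬝ᵥ v 0 = 0 → ∃ t : ℝ, p.2 = t • w 2) ∧ (p.2 ⬝ᵥ v 2 = 0 → ∃ t : ℝ, p.2 = t • w 0)

/-- The real-variable statement of (8.4), (8.5): `I` is an interval containing `0`, `Y` continuous
on `I`, `M x m` means that `m` is a slope over `x`. -/
def S_real : Prop :=
  ∀ (I : Set ℝ) (Y : ℝ → ℝ) (M : ℝ → ℝ → Prop), I.OrdConnected → 0 ∈ I → ContinuousOn Y I →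
    (∀ x m, M x m → x ∈ I) → (∀ x ∈ I, ∃ m, M x m) →
    (∀ x m x' m', M x m → M x' m' → x < x' →
      0 ≤ ((Y x' - Y x) / (x' - x) - m) * (m' - (Y x' - Y x) / (x' - x))) →
    (∀ x m, M x m → {x' ∈ I | Y x' = Y x + m * (x' - x)}.Finite) →
    Y 0 = 0 → (∀ x ∈ I, x ≠ 0 → Y x ≠ 0) → (∀ m, M 0 m → m = 0) →
    (∀ ε > 0, ∃ δ > 0, ∀ x m, |x| < δ → M x m → |m| < ε) →
    (∀ x ∈ I, 0 ≤ Y x) ∨ (∀ x ∈ I, Y x ≤ 0)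

/-- (8.2) - (8.5): one-sidedness. -/
def S_side : Prop :=
  ∀ (F : FS) (d : F.G) (v w : Fin 3 → E) (μ : Fin 3 → ℝ), F.Good d v w μ → F.Conn →
    ∃ σ : ℝ, (σ = 1 ∨ σ = -1) ∧ ∀ p ∈ F.fl, 0 ≤ σ * ((w 0 ⬝ᵥ p.1) * (w 2 ⬝ᵥ p.1))

/-- An invariant convex cone for a subgroup of finite index, on which the linear functional `ell`
is positive. -/
def S_cone : Prop :=
  ∀ (F : FS) (d : F.G) (v w : Fin 3 → E) (μ : Fin 3 → ℝ), F.Good d v w μ → F.Conn →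
    (∃ σ : ℝ, (σ = 1 ∨ σ = -1) ∧ ∀ p ∈ F.fl, 0 ≤ σ * ((w 0 ⬝ᵥ p.1) * (w 2 ⬝ᵥ p.1))) →
    ∃ (G' : Subgroup F.G) (C : Set E) (ell : E) (κ : ℝ), G'.FiniteIndex ∧ IsClosed C ∧
      Convex ℝ C ∧ (∀ x ∈ C, ∀ t : ℝ, 0 ≤ t → t • x ∈ C) ∧ 0 < κ ∧
      (∀ x ∈ C, κ * ‖x‖ ≤ ell ⬝ᵥ x) ∧ (interior C).Nonempty ∧
      ∀ f ∈ G', ∀ x ∈ C, F.m f *ᵥ x ∈ C

/-- Section 9, proper action on the cone. -/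
def S_conePD : Prop :=
  ∀ (D : KData) (C : Set E) (ell : E) (κ : ℝ), (∀ γ ∈ D.Γ, |(mat γ).det| = 1) → IsClosed C → Convex ℝ C →
    (∀ x ∈ C, ∀ t : ℝ, 0 ≤ t → t • x ∈ C) → 0 < κ → (∀ x ∈ C, κ * ‖x‖ ≤ ell ⬝ᵥ x) →
    (interior C).Nonempty → (∀ γ ∈ D.Γ, ∀ x ∈ C, mat γ *ᵥ x ∈ C) →
    (∀ R : ℝ, {γ : Aff3 | γ ∈ D.Γ ∧ ∀ i j, |lin γ i j| ≤ R}.Finite) →
    ∀ Q : Set E, IsCompact Q → Q ⊆ interior C →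
      {γ : Aff3 | γ ∈ D.Γ ∧ ∃ x ∈ Q, ∃ t : ℝ, 0 < t ∧ t • (mat γ *ᵥ x) ∈ Q}.Finite

/-- Section 9, conclusion. -/
def S_coneEnd : Prop :=
  ∀ (D : KData) (C : Set E) (ell : E) (κ : ℝ), IsClosed C → Convex ℝ C →
    (∀ x ∈ C, ∀ t : ℝ, 0 ≤ t → t • x ∈ C) → 0 < κ → (∀ x ∈ C, κ * ‖x‖ ≤ ell ⬝ᵥ x) →
    (interior C).Nonempty → (∀ γ ∈ D.Γ, ∀ x ∈ C, mat γ *ᵥ x ∈ C) →
    (∀ R : ℝ, {γ : Aff3 | γ ∈ D.Γ ∧ ∀ i j, |lin γ i j| ≤ R}.Finite) → False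

/-! ## The irreducible case -/

/-- Strong irreducibility of the linear holonomy. -/
def KData.Irr (D : KData) : Prop :=
  ∀ Γ' : Subgroup Aff3, Γ' ≤ D.Γ → (Γ'.subgroupOf D.Γ).FiniteIndex →
    ∀ U : Submodule ℝ E, (∀ γ ∈ Γ', ∀ u ∈ U, γ.linear u ∈ U) → U = ⊥ ∨ U = ⊤

def S_irr : Prop := ∀ D : KData, D.Irr → D.Ω = univ

end Pool.Agent.Helper77.K3
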