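import Mathlib

/-!
# Kleinian affine structures in dimension three: definitions

`KData` is a connected open set `Ω` of `ℝ³` with a group `Γ` of affine automorphisms of `ℝ³` which
preserve volume and act on `Ω` freely and properly discontinuously with compact quotient.  The
project proves `Ω = ℝ³`.  The definitions `S_...` are the statements of the modules.
-/

set_option autoImplicit false

open Set Filter Topology

namespace Pool.Agent.Helper77.K3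

/-- `ℝ³` -/
abbrev E := Fin 3 → ℝ

/-- The group of affine automorphisms of `ℝ³`. -/
abbrev Aff3 := E ≃ᵃ[ℝ] E

/-- Real `3 × 3` matrices. -/
abbrev M3 := Matrix (Fin 3) (Fin 3) ℝ

/-- `SL(3,ℝ)` -/
abbrev SL3 := Matrix.SpecialLinearGroup (Fin 3) ℝ

/-- The standard basis vectors. -/
def e (i : Fin 3) : E := Pi.single i 1

/-- Entries of the linear part. -/
def lin (γ : Aff3) (i j : Fin 3) : ℝ := γ.linear (e j) i

/-- The image of the origin. -/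
def tr (γ : Aff3) (i : Fin 3) : ℝ := γ 0 i

/-- The matrix of the linear part. -/
def mat (γ : Aff3) : M3 := Matrix.of fun i j => lin γ i j

/-- A Kleinian special affine structure on a closed 3-manifold: `Ω` open and connected in `ℝ³`, `Γ`
acting freely, properly discontinuously and cocompactly on `Ω` by volume preserving affine
automorphisms. -/
structure KData where
  /-- the group -/
  Γ : Subgroup Aff3
  /-- the domain -/
  Ω : Set E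
  isOpen : IsOpen Ω
  conn : IsConnected Ω
  inv : ∀ γ ∈ Γ, ∀ x ∈ Ω, γ x ∈ Ω
  det : ∀ γ ∈ Γ, |LinearMap.det (γ.linear : E →ₗ[ℝ] E)| = 1
  free : ∀ γ ∈ Γ, ∀ x ∈ Ω, γ x = x → γ = 1
  proper : ∀ C ⊆ Ω, IsCompact C → {γ : Aff3 | γ ∈ Γ ∧ ((γ '' C) ∩ C).Nonempty}.Finite
  cocompact : ∃ F ⊆ Ω, IsCompact F ∧ ∀ x ∈ Ω, ∃ γ ∈ Γ, γ x ∈ F

/-- The complement of the domain. -/
def KData.K (D : KData) : Set E := D.Ωᶜ

/-! ## Coordinates (module `Coord`) -/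

def S_coord : Prop :=
  (∀ (γ : Aff3) (x : E) (i : Fin 3),
    γ x i = lin γ i 0 * x 0 + lin γ i 1 * x 1 + lin γ i 2 * x 2 + tr γ i) ∧
  (∀ (γ δ : Aff3) (i j : Fin 3),
    lin (γ * δ) i j = lin γ i 0 * lin δ 0 j + lin γ i 1 * lin δ 1 j + lin γ i 2 * lin δ 2 j) ∧
  (∀ (γ δ : Aff3) (i : Fin 3),
    tr (γ * δ) i = lin γ i 0 * tr δ 0 + lin γ i 1 * tr δ 1 + lin γ i 2 * tr δ 2 + tr γ i) ∧
  (∀ (γ δ : Aff3), (∀ i j, lin γ i j = lin δ i j) → (∀ i, tr γ i = tr δ i) → γ = δ) ∧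
  (∀ (γ δ : Aff3), mat (γ * δ) = mat γ * mat δ) ∧ mat 1 = 1 ∧
  (∀ γ : Aff3, mat γ⁻¹ = (mat γ)⁻¹) ∧
  (∀ γ : Aff3, (mat γ).det = LinearMap.det (γ.linear : E →ₗ[ℝ] E)) ∧
  (∀ (γ : Aff3) (x : E), γ.linear x = (mat γ).mulVec x) ∧
  (∀ (A : M3) (b : E), A.det ≠ 0 → ∃ γ : Aff3, mat γ = A ∧ (∀ i, tr γ i = b i) ∧
    ∀ x, γ x = A.mulVec x + b)

/-! ## Basic facts (modules `Base*`) -/

/-- Proper discontinuity, sequential form. -/
def S_P1 : Prop :=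
  ∀ (D : KData) (γ : ℕ → Aff3) (x : ℕ → E) (a b : E), (∀ n, γ n ∈ D.Γ) →
    Tendsto γ atTop cofinite → Tendsto x atTop (𝓝 a) → Tendsto (fun n => γ n (x n)) atTop (𝓝 b) →
    a ∈ D.K ∨ b ∈ D.K

/-- Criteria for a sequence of elements to leave every finite set. -/
def S_cof : Prop :=
  (∀ (γ : ℕ → Aff3), (∃ i j, Tendsto (fun n => |lin (γ n) i j|) atTop atTop) →
    Tendsto γ atTop cofinite) ∧
  (∀ (γ : ℕ → Aff3), (∃ i, Tendsto (fun n => |tr (γ n) i|) atTop atTop) →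
    Tendsto γ atTop cofinite)

/-- Invariance of the complement; the complement is closed. -/
def S_K : Prop :=
  ∀ D : KData, IsClosed D.K ∧ (∀ γ ∈ D.Γ, ∀ x, γ x ∈ D.K ↔ x ∈ D.K)

/-- No nonempty proper convex set is invariant. -/
def S_F1 : Prop :=
  ∀ (D : KData) (C : Set E), Convex ℝ C → C.Nonempty → (∀ γ ∈ D.Γ, ∀ x ∈ C, γ x ∈ C) → C = univ

/-- Every plane meets `Ω`. -/
def S_F2 : Prop :=
  ∀ (D : KData) (a : E) (c : ℝ), a ≠ 0 → ∃ x ∈ D.Ω, a 0 * x 0 + a 1 * x 1 + a 2 * x 2 = c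

/-- Through every boundary point passes a line in the boundary. -/
def S_F3 : Prop :=
  ∀ (D : KData), ∀ a ∈ frontier D.Ω, ∃ v : E, v ≠ 0 ∧ ∀ t : ℝ, a + t • v ∈ frontier D.Ω

/-- The volume principle for `C¹` maps. -/
def S_NS : Prop :=
  ∀ (D : KData) (Φ : E → E), ContDiffOn ℝ 1 Φ D.Ω → (∀ γ ∈ D.Γ, ∀ x ∈ D.Ω, Φ (γ x) = γ (Φ x)) →
    (∀ x ∈ D.Ω, (fderiv ℝ Φ x).det = 0) → False

/-- Finite index subgroups. -/
def S_FI : Prop :=
  ∀ (D : KData) (Γ' : Subgroup Aff3), Γ' ≤ D.Γ → (Γ'.subgroupOf D.Γ).FiniteIndex →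
    ∃ D' : KData, D'.Γ = Γ' ∧ D'.Ω = D.Ω

/-- Conjugation by an affine automorphism. -/
def S_conj : Prop :=
  ∀ (D : KData) (φ : Aff3), ∃ D' : KData, D'.Ω = φ '' D.Ω ∧
    (∀ γ : Aff3, γ ∈ D'.Γ ↔ φ⁻¹ * γ * φ ∈ D.Γ)

/-- If the action is properly discontinuous on all of `ℝ³` then `Ω = ℝ³`. -/
def S_PDall : Prop :=
  ∀ D : KData, (∀ C : Set E, IsCompact C → {γ : Aff3 | γ ∈ D.Γ ∧ ((γ '' C) ∩ C).Nonempty}.Finite) →
    D.Ω = univ

/-- Bounded linear holonomy. -/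
def S_bdd : Prop :=
  ∀ D : KData, (∃ R : ℝ, ∀ γ ∈ D.Γ, ∀ i j, |lin γ i j| ≤ R) → D.Ω = univ

/-- Leaf lemma: `Ω` is invariant under the subspace `U`; the direction `u` is invariant modulo `U`,
with character `χ`; `f` is a positive weight on `Ω` which is constant in the direction `u` and
transforms by `|χ|`.  Then `Ω` is invariant under translations by multiples of `u`. -/
def S_leafW : Prop :=
  ∀ (D : KData) (U : Submodule ℝ E) (u : E) (χ : Aff3 → ℝ) (f : E → ℝ),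
    (∀ x ∈ D.Ω, ∀ w ∈ U, x + w ∈ D.Ω) → (∀ γ ∈ D.Γ, γ.linear u - χ γ • u ∈ U) →
    Continuous f → (∀ x, 0 < f x) → (∀ γ ∈ D.Γ, ∀ x, f (γ x) = |χ γ| * f x) →
    (∀ x (t : ℝ), f (x + t • u) = f x) → ∀ x ∈ D.Ω, ∀ t : ℝ, x + t • u ∈ D.Ω

/-- Leaf lemma for a bounded character. -/
def S_leafB : Prop :=
  ∀ (D : KData) (U : Submodule ℝ E) (u : E) (χ : Aff3 → ℝ),
    (∀ x ∈ D.Ω, ∀ w ∈ U, x + w ∈ D.Ω) → (∀ γ ∈ D.Γ, γ.linear u - χ γ • u ∈ U) →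
    (∃ R : ℝ, ∀ γ ∈ D.Γ, |χ γ| ≤ R) → ∀ x ∈ D.Ω, ∀ t : ℝ, x + t • u ∈ D.Ω

/-- If `Ω` is invariant under all translations of a plane then `Ω = ℝ³`. -/
def S_planeInv : Prop :=
  ∀ (D : KData) (a : E), a ≠ 0 →
    (∀ x ∈ D.Ω, ∀ w : E, a 0 * w 0 + a 1 * w 1 + a 2 * w 2 = 0 → x + w ∈ D.Ω) → D.Ω = univ

/-! ## Strong irreducibility and general position (module `Gen`) -/

/-- No subgroup of finite index has an invariant subspace. -/
def StrIrr {G : Type} [Group G] {W : Type} [AddCommGroup W] [Module ℝ W]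
    (ρ : G →* (W →ₗ[ℝ] W)) : Prop :=
  ∀ G' : Subgroup G, G'.FiniteIndex → ∀ U : Submodule ℝ W,
    (∀ f ∈ G', ∀ u ∈ U, ρ f u ∈ U) → U = ⊥ ∨ U = ⊤

/-- If finitely many subspaces cover an orbit then one of them contains the orbit of a subgroup of
finite index. -/
def S_cover : Prop :=
  ∀ (G : Type) [Group G] (X : Type) [AddCommGroup X] [Module ℝ X] [FiniteDimensional ℝ X]
    (ρ : G →* (X →ₗ[ℝ] X)) (x : X) (ι : Type) [Finite ι] (W : ι → Submodule ℝ X),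
    (∀ f : G, ∃ i, ρ f x ∈ W i) →
    ∃ i, ∃ G' : Subgroup G, G'.FiniteIndex ∧ ∀ f ∈ G', ρ f x ∈ W i

/-- General position. -/
def S_gen : Prop :=
  ∀ (G : Type) [Group G] (W : Type) [AddCommGroup W] [Module ℝ W] [FiniteDimensional ℝ W]
    (ρ : G →* (W →ₗ[ℝ] W)), StrIrr ρ → ∀ (ι κ : Type) [Finite ι] [Finite κ]
    (α : ι → W →ₗ[ℝ] ℝ) (v : ι → W) (β : κ → W →ₗ[ℝ] ℝ) (w : κ → W),
    (∀ i, α i ≠ 0) → (∀ i, v i ≠ 0) → (∀ i, β i ≠ 0) → (∀ i, w i ≠ 0) →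
    ∃ f : G, (∀ i, α i (ρ f (v i)) ≠ 0) ∧ (∀ i, β i (ρ f⁻¹ (w i)) ≠ 0)

/-! ## One end (module `OneEnd`) -/

/-- One end: an almost invariant subset is finite or has finite complement. -/
def OneEnded (G : Type) [Group G] : Prop :=
  ∀ A : Set G, (∀ s : G, {a : G | a ∈ A ∧ a * s ∉ A}.Finite) → A.Finite ∨ Aᶜ.Finite

def S_end : Prop := ∀ D : KData, D.Ω ≠ univ → OneEnded D.Γ

/-- Lifting of circle valued maps. -/
def S_lift : Prop :=
  ∀ (u : E → ℂ) (R : ℝ), Continuous u → (∀ x, ‖u x‖ = 1) → (∀ x, R ≤ ‖x‖ → u x = 1) →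
    ∃ w : E → ℝ, Continuous w ∧ ∀ x, Complex.exp (w x * Complex.I) = u x

end Pool.Agent.Helper77.K3
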