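import Pool.Agent.Helper77.K3.DefsI
import Pool.Agent.Helper77.K3.DefsII
import Pool.Agent.Helper2.MK.Data
import Pool.Agent.Helper4.MKT.Ruled

/-!
# From `KData` to compact affine manifolds with injective developing map
-/

set_option autoImplicit false

open Set Filter Topology Matrix

namespace Pool.Agent.Helper77.K3.Final

open Pool.Agent.Helper77.K3 Pool.Agent.Helper2.MK

/-- The two cases. -/
theorem main (h1 : S_irr) (h2 : S_red) : S_main := by
  intro D
  by_cases h : D.Irr
  · exact h1 D h
  · rw [KData.Irr] at h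
    push Not at h
    obtain ⟨Γ', hle, hfi, U, hU, hb, ht⟩ := h
    exact h2 D Γ' U hle hfi hU hb ht

section

variable {V G Y : Type*} [NormedAddCommGroup V] [NormedSpace ℝ V] [FiniteDimensional ℝ V]
  [Group G] [TopologicalSpace Y] [T2Space Y] [ConnectedSpace Y] [MulAction G Y]

/-- The data in `ℝ³` of a compact affine manifold with injective developing map, in linear
coordinates `T`. -/
noncomputable def toK (T : V ≃L[ℝ] E) (M : AffineDeveloping V G Y)
    (hinj : Function.Injective M.dev) : KData where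
  Γ := M.holHom.range.map
    (MulEquiv.toMonoidHom
      { toFun := fun A => (T.symm.toLinearEquiv.toAffineEquiv.trans A).trans
          T.toLinearEquiv.toAffineEquiv
        invFun := fun B => (T.toLinearEquiv.toAffineEquiv.trans B).trans
          T.symm.toLinearEquiv.toAffineEquiv
        left_inv := fun A => by ext x; simp
        right_inv := fun B => by ext x; simp
        map_mul' := fun A B => by ext x; simp [AffineEquiv.mul_def] })
  Ω := T '' range M.dev
  isOpen := T.toHomeomorph.isOpenMap _ M.dev_local.isOpenMap.isOpen_range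
  conn := (isConnected_range M.dev_local.continuous).image _ T.continuous.continuousOn
  inv := by
    rintro _ ⟨_, ⟨g, rfl⟩, rfl⟩ _ ⟨_, ⟨y, rfl⟩, rfl⟩
    refine ⟨M.dev (g • y), ⟨_, rfl⟩, ?_⟩
    rw [M.dev_smul]
    show T (M.hol g (M.dev y)) = T (M.hol g (T.symm (T (M.dev y))))
    rw [T.symm_apply_apply]
  det := by
    rintro _ ⟨_, ⟨g, rfl⟩, rfl⟩
    have h1 := M.volume_hol g
    rw [PreservesVolume] at h1
    rw [← h1]
    congr 1
    exact LinearMap.det_conj ((M.hol g).linear : V →ₗ[ℝ] V) T.toLinearEquiv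
  free := by
    rintro _ ⟨_, ⟨g, rfl⟩, rfl⟩ _ ⟨_, ⟨y, rfl⟩, rfl⟩ h
    have h1 : T (M.hol g (T.symm (T (M.dev y)))) = T (M.dev y) := h
    rw [T.symm_apply_apply] at h1
    have h2 : M.dev (g • y) = M.dev y := by
      rw [M.dev_smul]
      exact T.injective h1
    have h3 : g = 1 := M.covering.free g y (hinj h2)
    rw [h3, map_one, map_one]
  proper := by
    intro C hC hCc
    set C' : Set Y := (fun y => T (M.dev y)) ⁻¹' C with hC'
    have hemb : IsOpenEmbedding (fun y => T (M.dev y)) := by
      refine T.toHomeomorph.isOpenEmbedding.comp ?_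
      exact IsOpenEmbedding.of_continuous_injective_isOpenMap M.dev_local.continuous hinj
        M.dev_local.isOpenMap
    have hC'c : IsCompact C' := by
      refine hemb.isInducing.isCompact_preimage' hCc ?_
      intro x hx
      obtain ⟨_, ⟨y, rfl⟩, rfl⟩ := hC hx
      exact ⟨y, rfl⟩
    refine ((M.covering.proper C' hC'c).image (fun g : G =>
      ((T.symm.toLinearEquiv.toAffineEquiv.trans (M.hol g)).trans
          T.toLinearEquiv.toAffineEquiv : Aff3))).subset ?_
    rintro _ ⟨⟨_, ⟨g, rfl⟩, rfl⟩, ⟨x, ⟨z, hz, rfl⟩, hx⟩⟩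
    refine ⟨g, ?_, rfl⟩
    obtain ⟨_, ⟨y, rfl⟩, rfl⟩ := hC hz
    refine ⟨g • y, ⟨y, hz, rfl⟩, ?_⟩
    show T (M.dev (g • y)) ∈ C
    rw [M.dev_smul]
    have h1 : T (M.hol g (T.symm (T (M.dev y)))) ∈ C := hx
    rw [T.symm_apply_apply] at h1
    exact h1
  cocompact := by
    obtain ⟨F, hF, hcov⟩ := M.covering.cocompact
    refine ⟨T '' (M.dev '' F), image_mono (image_subset_range _ _),
      (hF.image M.dev_local.continuous).image T.continuous, ?_⟩
    rintro _ ⟨_, ⟨y, rfl⟩, rfl⟩
    obtain ⟨g, hg⟩ := hcov y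
    refine ⟨_, ⟨M.holHom g, ⟨g, rfl⟩, rfl⟩, M.dev (g • y), ⟨_, hg, rfl⟩, ?_⟩
    rw [M.dev_smul]
    show T (M.hol g (M.dev y)) = T (M.hol g (T.symm (T (M.dev y))))
    rw [T.symm_apply_apply]

/-- Completeness in dimension three for injective developing maps. -/
theorem complete (hmain : S_main) (hV : Module.finrank ℝ V = 3) (M : AffineDeveloping V G Y)
    (hinj : Function.Injective M.dev) : ∃ e : Y ≃ₜ V, ⇑e = M.dev := by
  let T : V ≃L[ℝ] E := ContinuousLinearEquiv.ofFinrankEq (by simp [hV])
  have h1 : T '' range M.dev = univ := hmain (toK T M hinj)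
  have h2 : range M.dev = univ := by
    rw [eq_univ_iff_forall]
    intro x
    have h3 : T x ∈ T '' range M.dev := by rw [h1]; exact mem_univ _
    obtain ⟨y, hy, hyx⟩ := h3
    rwa [T.injective hyx] at hy
  exact ⟨M.dev_local.toHomeomorphOfBijective ⟨hinj, range_eq_univ.mp h2⟩, rfl⟩

/-- Every hyperplane meets the image of an injective developing map (in fact injectivity is not
needed). -/
theorem hyperplane_meets (M : AffineDeveloping V G Y) (f : V →ₗ[ℝ] ℝ) (hf : f ≠ 0) (c : ℝ) :
    ∃ y : Y, f (M.dev y) = c := by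
  have : ContinuousConstSMul G Y := ⟨M.covering.continuous_smul⟩
  let _ : MeasurableSpace V := borel V
  have : BorelSpace V := ⟨rfl⟩
  by_contra hcon
  push Not at hcon
  have hfc : Continuous f := f.continuous_of_finiteDimensional
  have hconn : IsPreconnected (range fun y => f (M.dev y)) :=
    isPreconnected_range (hfc.comp M.dev_local.continuous)
  have hside : (∀ y, f (M.dev y) < c) ∨ (∀ y, c < f (M.dev y)) := by
    by_contra h2
    push Not at h2
    obtain ⟨⟨y1, h1⟩, ⟨y2, h2⟩⟩ := h2
    obtain ⟨y, hy⟩ := hconn.Icc_subset ⟨y2, rfl⟩ ⟨y1, rfl⟩ ⟨h2, h1⟩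
    exact hcon y hy
  have hinv : ∀ (g : G), ∀ x ∈ convexHull ℝ (range M.dev),
      M.holHom g x ∈ convexHull ℝ (range M.dev) := by
    intro g x hx
    have h1 : (M.holHom g : V →ᵃ[ℝ] V) '' (convexHull ℝ (range M.dev)) =
        convexHull ℝ ((M.holHom g : V →ᵃ[ℝ] V) '' range M.dev) :=
      AffineMap.image_convexHull _ _
    have h2 : (M.holHom g : V →ᵃ[ℝ] V) '' range M.dev ⊆ range M.dev := by
      rintro _ ⟨_, ⟨y, rfl⟩, rfl⟩
      exact ⟨g • y, M.dev_smul g y⟩
    have h3 : M.holHom g x ∈ (M.holHom g : V →ᵃ[ℝ] V) '' (convexHull ℝ (range M.dev)) :=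
      ⟨x, hx, rfl⟩
    rw [h1] at h3
    exact convexHull_mono h2 h3
  obtain ⟨y₀⟩ : Nonempty Y := inferInstance
  have hmem : M.dev y₀ ∈ convexHull ℝ (range M.dev) :=
    subset_convexHull ℝ _ (mem_range_self y₀)
  have huniv := no_invariant_star (h := M.holHom) (fun K hK => M.covering.proper K hK)
    M.covering.free M.dev_local M.dev_smul M.volume_hol M.covering.cocompact hinv hmem
    ((convex_convexHull ℝ _) hmem)
  obtain ⟨v, hv⟩ : ∃ v, f v ≠ 0 := by
    by_contra h0
    push Not at h0
    exact hf (LinearMap.ext h0)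
  have hx : ∀ s : ℝ, ((s / f v) • v) ∈ convexHull ℝ (range M.dev) := fun s => by
    rw [huniv]; exact mem_univ _
  have hfx : ∀ s : ℝ, f ((s / f v) • v) = s := by
    intro s
    rw [map_smul, smul_eq_mul, div_mul_cancel₀ _ hv]
  rcases hside with hs | hs
  · have hsub : convexHull ℝ (range M.dev) ⊆ {x | f x < c} := by
      apply convexHull_min
      · rintro _ ⟨y, rfl⟩
        exact hs y
      · exact (convex_Iio c).is_linear_preimage f.isLinear
    have h4 := hsub (hx c)
    rw [mem_ofPred_eq, hfx] at h4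
    exact lt_irrefl _ h4
  · have hsub : convexHull ℝ (range M.dev) ⊆ {x | c < f x} := by
      apply convexHull_min
      · rintro _ ⟨y, rfl⟩
        exact hs y
      · exact (convex_Ioi c).is_linear_preimage f.isLinear
    have h4 := hsub (hx c)
    rw [mem_ofPred_eq, hfx] at h4
    exact lt_irrefl _ h4

/-- Completeness in dimension at most two for injective developing maps. -/
theorem complete_two (hV : Module.finrank ℝ V ≤ 2) (M : AffineDeveloping V G Y)
    (hinj : Function.Injective M.dev) : ∃ e : Y ≃ₜ V, ⇑e = M.dev := by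
  have : ContinuousConstSMul G Y := ⟨M.covering.continuous_smul⟩
  let _ : MeasurableSpace V := borel V
  have : BorelSpace V := ⟨rfl⟩
  have hopen : IsOpen (range M.dev) := M.dev_local.isOpenMap.isOpen_range
  have h1 : range M.dev = univ := by
    by_contra hne
    obtain ⟨a, ha⟩ : (frontier (range M.dev)).Nonempty :=
      nonempty_frontier_iff.mpr ⟨range_nonempty _, hne⟩
    obtain ⟨v, hv, hva⟩ := Pool.Agent.Helper4.MKT.line_in_frontier (h := M.holHom)
      (fun K hK => M.covering.proper K hK) M.dev_local M.dev_smul M.volume_hol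
      M.covering.cocompact hinj ha
    -- the line is outside the range
    have hout : ∀ t : ℝ, a + t • v ∉ range M.dev := by
      intro t ht
      have h2 := hva t
      rw [hopen.frontier_eq] at h2
      exact h2.2 ht
    by_cases htop : (ℝ ∙ v) = ⊤
    · obtain ⟨y⟩ : Nonempty Y := inferInstance
      have h3 : M.dev y - a ∈ (ℝ ∙ v) := by rw [htop]; exact Submodule.mem_top
      obtain ⟨t, ht⟩ := Submodule.mem_span_singleton.1 h3
      refine hout t ⟨y, ?_⟩
      rw [ht]
      abel
    · obtain ⟨f, hf, hfv⟩ := Submodule.exists_le_ker_of_lt_top (ℝ ∙ v) (lt_top_iff_ne_top.2 htop)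
      have hker : LinearMap.ker f = ℝ ∙ v := by
        symm
        apply Submodule.eq_of_le_of_finrank_le hfv
        have h4 : Module.finrank ℝ (LinearMap.ker f) < Module.finrank ℝ V := by
          apply Submodule.finrank_lt
          rw [ne_eq, LinearMap.ker_eq_top]
          exact hf
        rw [finrank_span_singleton hv]
        omega
      obtain ⟨y, hy⟩ := hyperplane_meets M f hf (f a)
      have h5 : M.dev y - a ∈ LinearMap.ker f := by
        rw [LinearMap.mem_ker, map_sub, hy, sub_self]
      rw [hker] at h5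
      obtain ⟨t, ht⟩ := Submodule.mem_span_singleton.1 h5
      refine hout t ⟨y, ?_⟩
      rw [ht]
      abel
  exact ⟨M.dev_local.toHomeomorphOfBijective ⟨hinj, range_eq_univ.mp h1⟩, rfl⟩

/-- Completeness in dimension at most three for injective developing maps. -/
theorem complete_le (hmain : S_main) (hV : Module.finrank ℝ V ≤ 3) (M : AffineDeveloping V G Y)
    (hinj : Function.Injective M.dev) : ∃ e : Y ≃ₜ V, ⇑e = M.dev := by
  rcases Nat.lt_or_ge (Module.finrank ℝ V) 3 with h | h
  · exact complete_two (by omega) M hinj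
  · exact complete hmain (le_antisymm hV h) M hinj

end

end Pool.Agent.Helper77.K3.Final
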