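import Pool.Agent.Helper77.K3.DefsI

/-!
# Assembly of the irreducible case
-/

set_option autoImplicit false

open Set Filter Topology Matrix

namespace Pool.Agent.Helper77.K3.Irr

open Pool.Agent.Helper77.K3

/-- The linear holonomy as a homomorphism to `SL3`. -/
noncomputable def rho (hc : S_coord) (D : KData) (hdet : ∀ γ ∈ D.Γ, (mat γ).det = 1) :
    D.Γ →* SL3 where
  toFun γ := ⟨mat γ.1, hdet γ.1 γ.2⟩
  map_one' := by
    apply Subtype.ext
    simpa using hc.2.2.2.2.2.1
  map_mul' a b := by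
    apply Subtype.ext
    exact hc.2.2.2.2.1 a.1 b.1

theorem rho_coe (hc : S_coord) (D : KData) (hdet : ∀ γ ∈ D.Γ, (mat γ).det = 1) (γ : D.Γ) :
    (rho hc D hdet γ : M3) = mat γ.1 := rfl

/-- A subgroup of finite index of `D.Γ` (as a type) gives a subgroup of finite index. -/
theorem map_fi (Γ : Subgroup Aff3) (G' : Subgroup Γ) (h : G'.FiniteIndex) :
    (G'.map Γ.subtype) ≤ Γ ∧ ((G'.map Γ.subtype).subgroupOf Γ).FiniteIndex := by
  refine ⟨?_, ?_⟩
  · rintro _ ⟨x, _, rfl⟩
    exact x.2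
  · have : (G'.map Γ.subtype).subgroupOf Γ = G' := by
      ext x
      simp [Subgroup.mem_subgroupOf]
    rw [this]
    exact h

theorem strIrr_of_irr (hc : S_coord) (D : KData) (hdet : ∀ γ ∈ D.Γ, (mat γ).det = 1)
    (hirr : D.Irr) : StrIrr (linRep (rho hc D hdet)) := by
  intro G' hG' U hU
  obtain ⟨h1, h2⟩ := map_fi D.Γ G' hG'
  refine hirr _ h1 h2 U ?_
  rintro _ ⟨x, hx, rfl⟩ u hu
  have h3 := hU x hx u hu
  have h4 : linRep (rho hc D hdet) x u = (x : Aff3).linear u := by
    rw [hc.2.2.2.2.2.2.2.2.1]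
    show Matrix.toLin' _ u = _
    rw [Matrix.toLin'_apply, rho_coe]
  rw [h4] at h3
  exact h3

theorem irr_fi (D D' : KData) (h : D'.Γ ≤ D.Γ) (hfi : (D'.Γ.subgroupOf D.Γ).FiniteIndex)
    (hirr : D.Irr) : D'.Irr := by
  intro Γ' h1 h2 U hU
  refine hirr Γ' (h1.trans h) ?_ U hU
  have h3 : Γ'.relIndex D.Γ ≠ 0 := by
    have h4 : Γ'.relIndex D'.Γ ≠ 0 := by
      have := h2.index_ne_zero
      simpa [Subgroup.relIndex] using this
    have h5 : D'.Γ.relIndex D.Γ ≠ 0 := by
      have := hfi.index_ne_zero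
      simpa [Subgroup.relIndex] using this
    exact Subgroup.relIndex_ne_zero_trans h4 h5
  exact ⟨h3⟩

theorem irr_conj (D D' : KData) (φ : Aff3) (h : ∀ γ : Aff3, γ ∈ D'.Γ ↔ φ⁻¹ * γ * φ ∈ D.Γ)
    (hirr : D.Irr) : D'.Irr := by
  intro Γ' h1 h2 U hU
  -- conjugate everything back
  set c : Aff3 →* Aff3 := (MulAut.conj φ⁻¹).toMonoidHom with hcdef
  have hc : ∀ γ, c γ = φ⁻¹ * γ * φ := by
    intro γ
    simp [hcdef]
  have hcinj : Function.Injective c := (MulAut.conj φ⁻¹).injective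
  have hDD : D.Γ = D'.Γ.map c := by
    ext γ
    constructor
    · intro hγ
      refine ⟨φ * γ * φ⁻¹, ?_, ?_⟩
      · rw [SetLike.mem_coe, h]
        have : φ⁻¹ * (φ * γ * φ⁻¹) * φ = γ := by group
        rwa [this]
      · rw [hc]; group
    · rintro ⟨δ, hδ, rfl⟩
      rw [hc]
      exact (h δ).1 hδ
  have h3 : Γ'.map c ≤ D.Γ := by
    rw [hDD]
    exact Subgroup.map_mono h1
  have h4 : ((Γ'.map c).subgroupOf D.Γ).FiniteIndex := by
    have h5 : (Γ'.map c).relIndex D.Γ = Γ'.relIndex D'.Γ := by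
      rw [hDD]
      exact Subgroup.relIndex_map_map_of_injective _ _ hcinj
    have h6 : Γ'.relIndex D'.Γ ≠ 0 := by
      have := h2.index_ne_zero
      simpa [Subgroup.relIndex] using this
    refine ⟨?_⟩
    have : (Γ'.map c).relIndex D.Γ ≠ 0 := by rw [h5]; exact h6
    simpa [Subgroup.relIndex] using this
  have h7 := hirr (Γ'.map c) h3 h4 (U.comap (φ.linear : E →ₗ[ℝ] E)) ?_
  · rcases h7 with h7 | h7
    · left
      rw [eq_bot_iff]
      intro u hu
      have : φ.linear.symm u ∈ U.comap (φ.linear : E →ₗ[ℝ] E) := by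
        rw [Submodule.mem_comap]
        simpa using hu
      rw [h7, Submodule.mem_bot] at this
      have h8 : u = 0 := by
        have := congrArg φ.linear this
        simpa using this
      rw [h8]; exact Submodule.zero_mem _
    · right
      rw [eq_top_iff]
      intro u _
      have : φ.linear.symm u ∈ U.comap (φ.linear : E →ₗ[ℝ] E) := by
        rw [h7]; exact Submodule.mem_top
      rw [Submodule.mem_comap] at this
      simpa using this
  · rintro _ ⟨δ, hδ, rfl⟩ u hu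
    rw [Submodule.mem_comap] at hu ⊢
    have h9 := hU δ hδ _ hu
    have h10 : (φ.linear : E →ₗ[ℝ] E) ((c δ).linear u) = δ.linear ((φ.linear : E →ₗ[ℝ] E) u) := by
      have h11 : φ * c δ = δ * φ := by rw [hc]; group
      have h13 : ∀ a b : Aff3, (a * b).linear u = a.linear (b.linear u) := fun a b => rfl
      have h12 := congrArg (fun γ : Aff3 => γ.linear u) h11
      simp only [h13] at h12
      exact h12
    rw [h10]
    exact h9

/-- The kernel of a homomorphism with finitely many values has finite index. -/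
theorem ker_fi {G : Type} [Group G] (f : G →* ℝ) (hf : (range f).Finite) : f.ker.FiniteIndex := by
  have h1 : f.ker = f.toHomUnits.ker := by
    ext x
    rw [MonoidHom.mem_ker, MonoidHom.mem_ker, Units.ext_iff]
    rfl
  have h2 : (range f.toHomUnits).Finite := by
    refine Set.Finite.of_finite_image (f := fun u : ℝˣ => (u : ℝ)) ?_ (Units.val_injective.injOn)
    refine hf.subset ?_
    rintro _ ⟨_, ⟨g, rfl⟩, rfl⟩
    exact ⟨g, rfl⟩
  have h3 : Finite f.toHomUnits.range := h2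
  rw [h1]
  exact Subgroup.finiteIndex_ker _

/-- Passage to determinant one. -/
theorem exists_det_one (hc : S_coord) (hfi : S_FI) (D : KData) : ∃ D' : KData, D'.Γ ≤ D.Γ ∧
    (D'.Γ.subgroupOf D.Γ).FiniteIndex ∧ D'.Ω = D.Ω ∧ ∀ γ ∈ D'.Γ, (mat γ).det = 1 := by
  let f : D.Γ →* ℝ :=
    { toFun := fun γ => (mat γ.1).det
      map_one' := by
        show (mat (1 : Aff3)).det = 1
        rw [hc.2.2.2.2.2.1, Matrix.det_one]
      map_mul' := fun a b => by
        show (mat (a.1 * b.1)).det = _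
        rw [hc.2.2.2.2.1, Matrix.det_mul] }
  have hf : (range f).Finite := by
    refine (Set.toFinite ({1, -1} : Set ℝ)).subset ?_
    rintro _ ⟨γ, rfl⟩
    have h1 := D.det γ.1 γ.2
    rw [← hc.2.2.2.2.2.2.2.1] at h1
    have h2 : (mat γ.1).det = 1 ∨ (mat γ.1).det = -1 := eq_or_eq_neg_of_abs_eq h1
    exact h2
  obtain ⟨h1, h2⟩ := map_fi D.Γ f.ker (ker_fi f hf)
  obtain ⟨D', h3, h4⟩ := hfi D _ h1 h2
  refine ⟨D', by rw [h3]; exact h1, by rw [h3]; exact h2, h4, ?_⟩
  intro γ hγ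
  rw [h3] at hγ
  obtain ⟨x, hx, rfl⟩ := hγ
  exact hx

/-- Diagonalisation of a saddle. -/
theorem exists_diag (hc : S_coord) (f : Aff3) (hdet : (mat f).det = 1)
    (hs : IsSad ⟨mat f, hdet⟩) : ∃ (φ : Aff3) (ν : Fin 3 → ℝ), IsDiagSad (φ * f * φ⁻¹) ν := by
  obtain ⟨v, ν, hv, hv0, h2, h21, h1, h0⟩ := hs
  have hv' : ∀ i, mat f *ᵥ v i = ν i • v i := hv
  have hinj : Function.Injective ν := by
    have h3 : StrictAnti ν := by
      rw [Fin.strictAnti_iff_succ_lt]
      intro i
      fin_cases i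
      · show ν 1 < ν 0
        linarith
      · show ν 2 < ν 1
        exact h21
    exact h3.injective
  have hlin : LinearIndependent ℝ v := by
    refine Module.End.eigenvectors_linearIndependent' (Matrix.toLin' (mat f)) ν hinj v ?_
    intro i
    rw [Module.End.hasEigenvector_iff]
    refine ⟨?_, hv0 i⟩
    rw [Module.End.mem_eigenspace_iff, Matrix.toLin'_apply]
    exact hv' i
  set P : M3 := Matrix.of fun i j => v j i with hP
  have hPv : ∀ i, P *ᵥ e i = v i := by
    intro i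
    ext k
    rw [e, Matrix.mulVec_single_one]
    rfl
  have hPu : IsUnit P := by
    rw [← Matrix.linearIndependent_cols_iff_isUnit]
    exact hlin
  have hPdet : P.det ≠ 0 := by
    rw [Matrix.isUnit_iff_isUnit_det] at hPu
    exact hPu.ne_zero
  -- the fixed point
  have hfix : ∃ p : E, f p = p := by
    have h5 : (1 - mat f).det ≠ 0 := by
      intro h6
      obtain ⟨w, hw0, hw⟩ := Matrix.exists_mulVec_eq_zero_iff.2 h6
      have h7 : mat f *ᵥ w = w := by
        rw [Matrix.sub_mulVec, Matrix.one_mulVec, sub_eq_zero] at hw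
        exact hw.symm
      -- expand in the basis
      obtain ⟨c, rfl⟩ : ∃ c : E, w = P *ᵥ c := by
        refine ⟨P⁻¹ *ᵥ w, ?_⟩
        rw [Matrix.mulVec_mulVec, Matrix.mul_nonsing_inv _ (hPdet.isUnit), Matrix.one_mulVec]
      have h8 : P *ᵥ c = ∑ i, c i • v i := by
        have : c = ∑ i, c i • e i := by
          ext k
          simp [e, Finset.sum_apply, Pi.single_apply]
        conv_lhs => rw [this]
        rw [Matrix.mulVec_sum]
        refine Finset.sum_congr rfl fun i _ => ?_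
        rw [Matrix.mulVec_smul, hPv]
      have h9 : ∑ i, (c i * (ν i - 1)) • v i = 0 := by
        have h10 : mat f *ᵥ (∑ i, c i • v i) = ∑ i, (c i * ν i) • v i := by
          rw [Matrix.mulVec_sum]
          refine Finset.sum_congr rfl fun i _ => ?_
          rw [Matrix.mulVec_smul, hv', smul_smul]
        rw [h8, h10] at h7
        have : ∑ i, (c i * (ν i - 1)) • v i = ∑ i, (c i * ν i) • v i - ∑ i, c i • v i := by
          rw [← Finset.sum_sub_distrib]
          refine Finset.sum_congr rfl fun i _ => ?_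
          rw [← sub_smul]
          congr 1
          ring
        rw [this, h7, sub_self]
      have h11 := Fintype.linearIndependent_iff.1 hlin _ h9
      apply hw0
      rw [h8]
      refine Finset.sum_eq_zero fun i _ => ?_
      have h12 : c i = 0 := by
        rcases mul_eq_zero.1 (h11 i) with h | h
        · exact h
        · exfalso
          have : ν i = 1 := by linarith
          fin_cases i
          · exact absurd this (ne_of_gt h0)
          · exact absurd this (ne_of_lt h1)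
          · exact absurd this (ne_of_lt (h21.trans h1))
      rw [h12, zero_smul]
    refine ⟨(1 - mat f)⁻¹ *ᵥ (fun i => tr f i), ?_⟩
    set p := (1 - mat f)⁻¹ *ᵥ (fun i => tr f i) with hp
    have h6 : (1 - mat f) *ᵥ p = fun i => tr f i := by
      rw [hp, Matrix.mulVec_mulVec, Matrix.mul_nonsing_inv _ (h5.isUnit), Matrix.one_mulVec]
    ext i
    have h7 := congrFun h6 i
    rw [Matrix.sub_mulVec, Matrix.one_mulVec, Pi.sub_apply] at h7
    rw [hc.1 f p i]
    have h8 : (mat f *ᵥ p) i = lin f i 0 * p 0 + lin f i 1 * p 1 + lin f i 2 * p 2 := by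
      simp [Matrix.mulVec, dotProduct, Fin.sum_univ_three, mat]
    linarith
  obtain ⟨p, hp⟩ := hfix
  have hPi : P⁻¹.det ≠ 0 := by
    rw [Matrix.det_nonsing_inv]
    simpa using hPdet
  obtain ⟨φ, hφm, hφt, hφ⟩ := hc.2.2.2.2.2.2.2.2.2 P⁻¹ (-(P⁻¹ *ᵥ p)) hPi
  refine ⟨φ, ν, ?_, ?_, h2, h21, h1, h0⟩
  · have h3 : mat (φ * f * φ⁻¹) = Matrix.diagonal ν := by
      rw [hc.2.2.2.2.1, hc.2.2.2.2.1, hc.2.2.2.2.2.2.1, hφm, Matrix.nonsing_inv_nonsing_inv _
        (hPdet.isUnit)]
      have h4 : mat f * P = P * Matrix.diagonal ν := by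
        ext i j
        have h5 := congrFun (hv' j) i
        have h6 : (mat f * P) i j = (mat f *ᵥ v j) i := by
          simp [Matrix.mul_apply, Matrix.mulVec, dotProduct, hP]
        rw [h6, h5, Matrix.mul_diagonal]
        simp [hP, mul_comm]
      rw [Matrix.mul_assoc, h4, ← Matrix.mul_assoc, Matrix.nonsing_inv_mul _ (hPdet.isUnit),
        Matrix.one_mul]
    intro i j
    have h4 : lin (φ * f * φ⁻¹) i j = mat (φ * f * φ⁻¹) i j := rfl
    rw [h4, h3, Matrix.diagonal_apply]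
  · intro i
    have h3 : φ p = 0 := by
      rw [hφ p]
      simp
    have h4 : (φ * f * φ⁻¹ : Aff3) 0 = 0 := by
      have h5 : (φ⁻¹ : Aff3) 0 = p := by
        rw [← h3]
        show φ.symm (φ p) = p
        exact φ.symm_apply_apply p
      have h6 : (φ * f * φ⁻¹ : Aff3) 0 = φ (f ((φ⁻¹ : Aff3) 0)) := rfl
      rw [h6, h5, hp, h3]
    show (φ * f * φ⁻¹ : Aff3) 0 i = 0
    rw [h4]
    rfl

/-- Assembly of the irreducible case. -/
theorem irr (hc : S_coord) (hfi : S_FI) (hconj : S_conj) (hbdd : S_bdd) (hdich : S_dich)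
    (hform : S_form) (hhalf : S_half) (hnc : S_NC) (htrans : S_trans) (hdisc : S_disc)
    (hprop : S_prop) (hend : S_end) (hconn : S_conn) (hgood : S_good) (hside : S_side)
    (hcone : S_cone) (hce : S_coneEnd) : S_irr := by
  intro D₀ hirr₀
  by_contra hne₀
  -- determinant one
  obtain ⟨D, hle, hDfi, hΩ, hdet⟩ := exists_det_one hc hfi D₀
  have hirr : D.Irr := irr_fi D₀ D hle hDfi hirr₀
  have hne : D.Ω ≠ univ := by rw [hΩ]; exact hne₀
  have hstr := strIrr_of_irr hc D hdet hirr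
  have hunb : ¬ ∃ R : ℝ, ∀ f i j, |(rho hc D hdet f : M3) i j| ≤ R := by
    rintro ⟨R, hR⟩
    refine hne (hbdd D ⟨R, fun γ hγ i j => ?_⟩)
    exact hR ⟨γ, hγ⟩ i j
  rcases hdich D.Γ (rho hc D hdet) hstr hunb with ⟨f, hf⟩ | ⟨G', B, hG', hBt, hB, hx, hy, hpres⟩
  swap
  · -- invariant form
    obtain ⟨h1, h2⟩ := map_fi D.Γ G' hG'
    obtain ⟨D', h3, h4⟩ := hfi D _ h1 h2
    refine hne ?_
    rw [← h4]
    refine hform D' B hBt hB hx hy ?_
    intro γ hγ
    rw [h3] at hγ
    obtain ⟨x, hx', rfl⟩ := hγ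
    exact hpres x hx'
  · obtain ⟨φ, ν, hφ⟩ := exists_diag hc f.1 (hdet f.1 f.2) hf
    obtain ⟨D', hΩ', hD'⟩ := hconj D φ
    have hirr' : D'.Irr := irr_conj D D' φ hD' hirr
    have hne' : D'.Ω ≠ univ := by
      intro h
      apply hne
      rw [hΩ'] at h
      have h2 : D.Ω = φ ⁻¹' (φ '' D.Ω) := (Set.preimage_image_eq _ φ.injective).symm
      rw [h2, h, preimage_univ]
    have hdet' : ∀ γ ∈ D'.Γ, (mat γ).det = 1 := by
      intro γ hγ
      have h1 := hdet _ ((hD' γ).1 hγ)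
      rw [hc.2.2.2.2.1, hc.2.2.2.2.1, Matrix.det_mul, Matrix.det_mul, hc.2.2.2.2.2.2.1] at h1
      have h3 : (mat φ).det ≠ 0 := by
        rw [hc.2.2.2.2.2.2.2.1]
        exact (LinearEquiv.isUnit_det' φ.linear).ne_zero
      rw [Matrix.det_nonsing_inv, Ring.inverse_eq_inv'] at h1
      field_simp at h1
      exact h1
    set g : Aff3 := φ * f.1 * φ⁻¹ with hg
    have hgm : g ∈ D'.Γ := by
      rw [hD', hg]
      have : φ⁻¹ * (φ * f.1 * φ⁻¹) * φ = f.1 := by group
      rw [this]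
      exact f.2
    obtain ⟨hgl, hgt, h2, h21, h1, h0⟩ := hφ
    obtain ⟨S, hS, hScl, hS0, hSne, hSν, hSf⟩ := hhalf D' g ν hdet' hgm ⟨hgl, hgt, h2, h21, h1, h0⟩
    have hstr' := strIrr_of_irr hc D' hdet' hirr'
    have hgd : (rho hc D' hdet' ⟨g, hgm⟩ : M3) = Matrix.diagonal ν := by
      rw [rho_coe]
      ext i j
      rw [Matrix.diagonal_apply]
      exact hgl i j
    have hNC := hnc D'.Γ (rho hc D' hdet') ⟨g, hgm⟩ ν hstr' hgd h2 h21 h1 h0 S hScl hS0 hSne hSν
      (fun f hf s => hSf f.1 f.2 hf s)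
    let F : FS :=
      { G := D'.Γ
        ρ := rho hc D' hdet'
        irr := hstr'
        g := ⟨g, hgm⟩
        ν := ν
        pos := h2
        lt1 := h21
        lt0 := h1.trans h0
        ne1 := h1.ne
        diag := hgd
        NC := hNC }
    have hFm : ∀ γ : D'.Γ, F.m γ = mat γ.1 := fun γ => rfl
    have hirrD : ∀ U : Submodule ℝ E, (∀ γ ∈ D'.Γ, ∀ u ∈ U, γ.linear u ∈ U) → U = ⊥ ∨ U = ⊤ := by
      intro U hU
      refine hirr' D'.Γ le_rfl ?_ U hU
      rw [Subgroup.subgroupOf_self]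
      infer_instance
    have htr := htrans D' g ν hgm ⟨hgl, hgt, h2, h21, h1, h0⟩ hirrD
    have hinj : ∀ f : F.G, F.m f = 1 → f = 1 := by
      intro f hf
      exact Subtype.ext (htr f.1 f.2 hf)
    have hpr : F.Proper := hprop F hinj (hdisc F)
    have hone : OneEnded F.G := hend D' hne'
    have hcn : F.Conn := hconn F hpr hone
    obtain ⟨d, v, w, μ, hgd'⟩ := hgood F
    have hsd := hside F d v w μ hgd' hcn
    obtain ⟨G', C, ell, κ, hG', hCcl, hCconv, hCcone, hκ, hCell, hCint, hCinv⟩ :=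
      hcone F d v w μ hgd' hcn hsd
    obtain ⟨h3, h4⟩ := map_fi D'.Γ G' hG'
    obtain ⟨D'', h5, h6⟩ := hfi D' _ h3 h4
    refine hce D'' C ell κ hCcl hCconv hCcone hκ hCell hCint ?_ ?_
    · intro γ hγ x hx
      rw [h5] at hγ
      obtain ⟨y, hy, rfl⟩ := hγ
      exact hCinv y hy x hx
    · intro R
      have h7 := hpr R
      have h8 : {γ : Aff3 | γ ∈ D''.Γ ∧ ∀ i j, |lin γ i j| ≤ R} ⊆
          (fun γ : D'.Γ => (γ : Aff3)) '' {f : F.G | ∀ i j, |F.m f i j| ≤ R} := by
        rintro γ ⟨hγ, hb⟩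
        have h9 : γ ∈ D'.Γ := by
          rw [h5] at hγ
          exact h3 hγ
        exact ⟨⟨γ, h9⟩, hb, rfl⟩
      exact (h7.image _).subset h8

end Pool.Agent.Helper77.K3.Irr
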