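import Pool.Agent.Helper77.K3.Irr
import Pool.Agent.Helper77.K3.Final
import Pool.Agent.Helper33.K3.coord
import Pool.Agent.Helper33.K3.lift
import Pool.Agent.Helper33.K3.dich
import Pool.Agent.Helper33.K3.half
import Pool.Agent.Helper33.K3.T
import Pool.Agent.Helper58.K3.baseA
import Pool.Agent.Helper58.K3.nc
import Pool.Agent.Helper58.K3.real
import Pool.Agent.Helper58.K3.b2ii
import Pool.Agent.Helper2.K3.baseB
import Pool.Agent.Helper2.K3.B2
import Pool.Agent.Helper2.K3.T3b
import Pool.Agent.Helper72.K3.baseC
import Pool.Agent.Helper72.K3.baseD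
import Pool.Agent.Helper72.K3.disc
import Pool.Agent.Helper72.K3.rank1
import Pool.Agent.Helper72.K3.T1b
import Pool.Agent.Helper74.K3.gen
import Pool.Agent.Helper74.K3.pert
import Pool.Agent.Helper80.K3.OneEnd
import Pool.Agent.Helper47.K3.rk1
import Pool.Agent.Helper47.K3.planesub
import Pool.Agent.Helper47.K3.TS
import Pool.Agent.Helper29.K3.form
import Pool.Agent.Helper29.K3.lemD
import Pool.Agent.Helper82.K3.flag
import Pool.Agent.Helper82.K3.dens
import Pool.Agent.Helper40.K3.dual
import Pool.Agent.Helper40.K3.lemC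
import Pool.Agent.Helper40.K3.S1
import Pool.Agent.Helper40.K3.S2
import Pool.Agent.Helper13.K3.trans
import Pool.Agent.Helper13.K3.T1a
import Pool.Agent.Helper62.K3.conn
import Pool.Agent.Helper62.K3.cone
import Pool.Agent.Helper62.K3.conf2
import Pool.Agent.Helper62.K3.contr
import Pool.Agent.Helper65.K3.good
import Pool.Agent.Helper65.K3.side
import Pool.Agent.Helper23.K3.conePD
import Pool.Agent.Helper23.K3.coneEnd
import Pool.Agent.Helper23.K3.norm
import Pool.Agent.Helper23.K3.b2iii
import Pool.Agent.Helper3.K3.hyp2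
import Pool.Agent.Helper3.K3.per
import Pool.Agent.Helper55.K3.frame
import Pool.Agent.Helper55.K3.cancel
import Pool.Agent.Helper64.K3.T2disc
import Pool.Agent.Helper64.K3.TwoBn
import Pool.Agent.Helper71.K3.densN
import Pool.Agent.Helper71.K3.comm
import Pool.Agent.Helper81.K3.TwoAn
import Pool.Agent.Helper82.K3.T2lat
import Pool.Agent.Helper82.K3.b2iv
import Pool.Agent.Helper81.K3.B2i
import Pool.Agent.Helper65.K3.red

/-!
# Kleinian affine structures in dimension three: all modules together
-/

set_option autoImplicit false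

namespace Pool.Agent.Helper77.K3.Main

open Pool.Agent.Helper77.K3 Pool.Agent

/-! ### Basic modules -/

theorem coord : S_coord := Helper33.K3.coord
theorem P1 : S_P1 := Helper58.K3.baseA.P1
theorem cof : S_cof := Helper58.K3.baseA.cof
theorem K : S_K := Helper58.K3.baseA.K
theorem F1 : S_F1 := Helper2.K3.baseB.F1
theorem F2 : S_F2 := Helper2.K3.baseB.F2
theorem F3 : S_F3 := Helper2.K3.baseB.F3
theorem NS : S_NS := Helper2.K3.baseB.NS
theorem FI : S_FI := Helper72.K3.baseC.FI
theorem conj : S_conj := Helper72.K3.baseC.conj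
theorem PDall : S_PDall := Helper72.K3.baseD.PDall
theorem bdd : S_bdd := Helper72.K3.baseD.bdd
theorem leafW : S_leafW := Helper72.K3.baseD.leafW
theorem leafB : S_leafB := Helper72.K3.baseD.leafB
theorem planeInv : S_planeInv := Helper72.K3.baseD.planeInv F2
theorem cover : S_cover := Helper74.K3.gen.cover
theorem gen : S_gen := Helper74.K3.gen.gen
theorem oneEnd : S_end := Helper80.K3.oneend Helper33.K3.lift F3 P1 K

/-! ### The irreducible case -/

theorem pert : S_pert := Helper74.K3.pert.pert
theorem dich : S_dich := Helper33.K3.dich pert Helper47.K3.rk1.rk1 gen cover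
theorem form : S_form := Helper29.K3.form.form
theorem half : S_half := Helper33.K3.half P1 F2 K cof
theorem nc : S_NC := Helper58.K3.nc.NC gen
theorem flag : S_flag := Helper82.K3.flag.thm_flag gen
theorem dens : S_dens := Helper82.K3.dens.thm_dens gen
theorem flim : S_flim := Helper82.K3.dens.thm_flim gen
theorem dual : S_dual := Helper40.K3.dual.dual
theorem lemC : S_lemC := Helper40.K3.lemC.lemC flag dens
theorem lemD : S_lemD := Helper29.K3.lemD.lemD flag lemC
theorem lemDs : S_lemDs := Helper29.K3.lemD.lemDs flag lemC dual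
theorem trans : S_trans := Helper13.K3.trans.trans coord P1 cof F2 K
theorem disc : S_disc := Helper72.K3.disc.isolated gen
theorem prop : S_prop := Helper72.K3.rank1.prop
theorem rank1 : S_rank1 := Helper72.K3.rank1.limits_rank1 gen flag flim lemC
theorem conn : S_conn := Helper62.K3.conn.conn rank1
theorem good : S_good := Helper65.K3.good.good flag flim lemD lemDs pert gen
theorem good2 : S_good2 := Helper65.K3.good.good2 flag
theorem side : S_side := Helper65.K3.side.side flag good2 lemD Helper58.K3.real.real
theorem cone : S_cone := Helper62.K3.cone.cone flag good2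
theorem coneEnd : S_coneEnd := Helper23.K3.coneEnd NS

theorem irr : S_irr :=
  Irr.irr coord FI conj bdd dich form half nc trans disc prop oneEnd conn good side cone coneEnd

/-! ### The reducible case -/

theorem hyp2 : S_hyp2 := Helper3.K3.hyp2.hyp2 gen
theorem conf2 : S_conf2 := Helper62.K3.conf2.conf2
theorem contr : S_contr := Helper62.K3.contr.contr coord
theorem noX : S_noX := Helper62.K3.contr.noX coord
theorem nondisc : S_nondisc := Helper47.K3.planesub.nondisc
theorem lat2 : S_lat2 := Helper47.K3.planesub.lat2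
theorem cyc : S_cyc := Helper47.K3.planesub.cyc
theorem frame : S_frame := Helper55.K3.frame.frame
theorem c0 : S_c0 := Helper55.K3.cancel.c0 P1 F2
theorem move : S_move := Helper55.K3.cancel.move P1 F2
theorem B2 : S_B2 := Helper2.K3.B2.B2 frame P1 F2 K cof
theorem per : S_per := Helper3.K3.per.per frame P1 F2 K coord
theorem twoAn : S_2An := Helper81.K3.TwoAn.twoAn hyp2 gen P1 F2 K coord
theorem twoBn : S_2Bn := Helper64.K3.TwoBn.twoBn hyp2 gen frame move B2 per leafB
theorem S1 : S_S1 := Helper40.K3.S1.S1 contr F1 F2 P1 K cof planeInv conj nondisc coord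
theorem S2 : S_S2 := Helper40.K3.S2.S2 contr F1 F2 P1 K cof leafB conj nondisc coord
theorem norm : S_norm := Helper23.K3.norm conj
theorem densN : S_densN := Helper71.K3.densN.densN F1 coord
theorem T0 : S_T0 := Helper71.K3.densN.T0 leafB planeInv
theorem TS : S_TS := Helper47.K3.TS.TS coord P1 F2 cof
theorem T1a : S_T1a := Helper13.K3.T1a.T1a coord P1 cof F1 F2 K norm
theorem T1b : S_T1b := Helper72.K3.T1b.tri_unimodular leafW planeInv TS coord
theorem T2disc : S_T2disc :=
  Helper64.K3.T2disc.T2disc leafB c0 move frame nondisc lat2 F1 F2 K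
theorem T2lat : S_T2lat := Helper82.K3.T2lat.thm_T2lat F2 PDall
theorem T2 : S_T2 := Helper33.K3.T2 norm T2disc T2lat
theorem T3a : S_T3a := Helper71.K3.densN.T3a densN TS coord
theorem T3b : S_T3b := Helper2.K3.T3b.T3b densN P1 F2 K cof
theorem comm : S_comm := Helper71.K3.comm.comm noX densN coord
theorem ys : S_ys := Helper71.K3.comm.ys F2 coord
theorem b2ii : S_b2ii := Helper58.K3.b2ii.b2ii coord P1 F1 F2 K norm densN comm nondisc
theorem b2iii : S_b2iii := Helper23.K3.b2iii norm densN nondisc

theorem b2iv : S_b2iv := Helper82.K3.b2iv.thm_b2iv norm comm ys densN noX T2 F2 conj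
theorem b2i : S_b2i := Helper81.K3.B2i.b2i coord comm contr densN P1 F1 F2 K nondisc ys norm

theorem tri : S_T := Helper33.K3.T T0 T1a T1b T2 T3a T3b b2i b2ii b2iii b2iv

theorem red : S_red := Helper65.K3.red.red FI conj twoAn twoBn S1 S2 tri conf2 coord

/-! ### The main theorem -/

theorem main : S_main := Final.main irr red

end Pool.Agent.Helper77.K3.Main
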